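import Pool.Agent.L5helper28.IH.Rat

/-!
# Families, products of powers and isogenies
-/

set_option autoImplicit false
set_option linter.unusedSectionVars false

open CategoryTheory AlgebraicGeometry TensorProduct Matrix

universe u

namespace Pool.Agent.L5helper28.IH

open Module
open Pool.Agent.H914 Pool.Agent.H914.VarClass Pool.Agent.H914.VarClass.Obj
  Pool.Agent.H914.WeilCohomology
open Pool.Agent.Y121 Pool.Agent.Y121.AHS Pool.Agent.N996 Pool.Agent.N996.FP
open Pool.Agent.L5helper28.IF
open Pool.Agent.L5helper28.IG (Brs ind_mixed ell_dich PP)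
open Pool.Agent.L5helper28.CA (AllIn prod_in exists_pt)
open Pool.Agent.Y133.Half (pw ClassPred)

noncomputable section

variable {k : Type u} [Field k] {𝒱 : VarClass k} {ops : CycleOps 𝒱} {T : HodgeTheory ops}
  {X Y P E R : 𝒱.Obj} {w : ℕ}

set_option maxHeartbeats 400000

theorem mxC_of_one (h : IG.MxC T X) : MxC T X 1 := by
  obtain ⟨hg, ψ, hψ, hmx⟩ := h
  refine ⟨odd_one, fun z => ?_, ψ, hψ, fun A hA => hmx A hA⟩
  have h1 : z ∈ Algebra.adjoin T.W.K (T.W.gr X 1 : Set (T.W.H X)) := by rw [hg]; trivial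
  exact Algebra.adjoin_mono Set.subset_union_right h1

theorem noMorphism_of (h : NoMor T X Y 1 1) : NoMorphism T X Y := by
  intro f hf x hx
  refine h f 0 (by norm_num) (fun p q y hy => ?_) x hx
  rw [add_zero, add_zero]
  exact hf p q y hy

/-- **Independence.** -/
theorem ind_kinds {ι : Type*} {x : ι → 𝒱.Obj} {w : ι → ℕ}
    (hp : ∀ i, ∃ ψ, IsPolarisation T (x i) ψ)
    (hk : ∀ i, (w i = 1 ∧ IsEllipticCurve T (x i)) ∨ MxC T (x i) (w i))
    (hno : ∀ i j, i ≠ j → NoMor T (x i) (x j) (w i) (w j)) (F : Finset ι) :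
    Ind (LT T) x (F : Set ι) := by
  classical
  refine ind_mixed (B := {i | MxC T (x i) (w i)}) (fun D hD E hE => LL_br hD hE)
    (fun i hi D hD => perf_max hi hD) ?_ ?_ F
  · intro i hi j hij D hD
    by_cases hj : MxC T (x j) (w j)
    · exact pair_max hi hj (hno i j hij) hD
    · obtain ⟨hw1, hjE⟩ := (hk j).resolve_right hj
      have hab := (ell_dich hjE (hp j)).resolve_left fun h => hj (by
        rw [hw1]
        exact mxC_of_one h)
      have h1 := perf_max hi hD
      have h2 : ∀ w ∈ Brs T (x i), ∃ D' ∈ LT T, D' (x j) = 0 ∧ D' (x i) = w := by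
        intro w hw
        induction hw using Submodule.span_induction with
        | mem w hw =>
          obtain ⟨A, hA, B, hB, rfl⟩ := hw
          exact ⟨A * B - B * A, LL_br hA hB, hab A hA B hB, rfl⟩
        | zero => exact ⟨0, zero_mem _, rfl, rfl⟩
        | add a b _ _ ha hb =>
          obtain ⟨D1, h1, h2, h3⟩ := ha
          obtain ⟨D2, h4, h5, h6⟩ := hb
          exact ⟨D1 + D2, add_mem h1 h4, by rw [Pi.add_apply, h2, h5, add_zero],
            by rw [Pi.add_apply, h3, h6]⟩
        | smul c a _ ha =>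
          obtain ⟨D1, h1, h2, h3⟩ := ha
          exact ⟨c • D1, Submodule.smul_mem _ _ h1, by rw [Pi.smul_apply, h2, smul_zero],
            by rw [Pi.smul_apply, h3]⟩
      exact h2 _ h1
  · intro G hG
    let κ := {i : ι // i ∉ {i | MxC T (x i) (w i)}}
    have hκ : ∀ i : κ, w i = 1 ∧ IsEllipticCurve T (x i) := fun i => (hk i).resolve_right i.2
    have h1 : IF.Independent T (fun i : κ => x i) := independent_elliptic
      (fun i => (hκ i).2) (fun i => hp i) (fun i j hij => noMorphism_of (by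
        have h := hno i j fun h => hij (Subtype.ext h)
        rwa [(hκ i).1, (hκ j).1] at h))
    intro i hi D hD
    have h2 := h1.ind (G.subtype fun i => i ∉ {i | MxC T (x i) (w i)}) ⟨i, hG i hi⟩
      (Finset.mem_coe.2 (Finset.mem_subtype.2 hi)) D hD
    obtain ⟨D', hD', h3⟩ := h2
    refine ⟨D', ⟨hD'.1, fun j hj => ?_⟩, h3⟩
    exact hD'.2 ⟨j, hG j hj.1⟩ ⟨Finset.mem_coe.2 (Finset.mem_subtype.2 hj.1),
      fun h => hj.2 (congrArg Subtype.val h)⟩

/-! ### Isogenies -/

theorem map_proj (f : P ⟶ R) (i : ℕ) (x : T.W.H R) :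
    T.W.map f (H914.proj (T.W.isInternal R) i x) =
      H914.proj (T.W.isInternal P) i (T.W.map f x) := by
  refine gr_induction (T.W.isInternal R) (p := fun x =>
    T.W.map f (H914.proj (T.W.isInternal R) i x) =
      H914.proj (T.W.isInternal P) i (T.W.map f x)) ?_ ?_ x
  · intro j a ha
    by_cases hj : j = i
    · subst hj
      rw [H914.proj_same _ ha, H914.proj_same _ (T.W.map_mem f ha)]
    · rw [H914.proj_ne _ ha hj, H914.proj_ne _ (T.W.map_mem f ha) hj, map_zero]
  · intro a b ha hb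
    rw [map_add, map_add, map_add, map_add, ha, hb]

theorem allIn_isog {Q : ClassPred T.W} {f : P ⟶ R} (hf : Function.Bijective (T.W.map f))
    (h : AllIn T Q P) : AllIn T Q R := by
  intro j c hc
  by_cases h1 : (1 : T.W.H P) = 0
  · have h2 : (1 : T.W.H R) = 0 := by
      apply hf.1
      rw [map_one, map_zero, h1]
    have h3 : c = 0 := by rw [← mul_one c, h2, mul_zero]
    rw [h3]
    exact Q.zero
  · have h1' : (1 : T.W.H R) ≠ 0 := by
      intro h2
      apply h1
      rw [← map_one (T.W.map f), h2, map_zero]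
    -- the dimensions
    obtain ⟨τ, hτ, hτ1⟩ := exists_pt (Q := Q) (T := T) h1
    obtain ⟨σ, hσ, hσ1⟩ := exists_pt (Q := Q) (T := T) h1'
    have hτ0 : τ ≠ 0 := by
      rintro rfl
      rw [map_zero] at hτ1
      exact zero_ne_one hτ1
    have hσ0 : σ ≠ 0 := by
      rintro rfl
      rw [map_zero] at hσ1
      exact zero_ne_one hσ1
    have hd1 : P.dim ≤ R.dim := by
      by_contra hcon
      obtain ⟨y, rfl⟩ := hf.2 τ
      have h2 := map_proj f (2 * P.dim) y
      rw [H914.proj_same _ (Q.gr hτ)] at h2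
      have h3 : H914.proj (T.W.isInternal R) (2 * P.dim) y ∈ T.W.gr R (2 * P.dim) :=
        H914.proj_mem _ _ _
      rw [T.W.gr_eq_bot R _ (by omega), Submodule.mem_bot] at h3
      rw [h3, map_zero] at h2
      exact hτ0 h2.symm
    have hd2 : R.dim ≤ P.dim := by
      by_contra hcon
      have h3 := T.W.map_mem f (Q.gr hσ)
      rw [T.W.gr_eq_bot P _ (by omega), Submodule.mem_bot] at h3
      exact hσ0 (hf.1 (by rw [h3, map_zero]))
    have hd : P.dim = R.dim := le_antisymm hd1 hd2
    -- the degree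
    have h2 := T.W.push_mem f (T.W.one_mem P)
    have e : ((0 : ℕ) : ℤ) + 2 * ((R.dim : ℤ) - P.dim) = ((0 : ℕ) : ℤ) := by rw [hd]; simp
    rw [e, grZ_natCast, T.W.gr_zero] at h2
    obtain ⟨l, hl⟩ := Submodule.mem_span_singleton.1 h2
    have hl0 : l ≠ 0 := by
      rintro rfl
      obtain ⟨y, rfl⟩ := hf.2 τ
      have h3 := T.W.tr_push f 1 y
      rw [← hl, zero_smul, zero_mul, map_zero, one_mul, hτ1] at h3
      exact zero_ne_one h3
    have h3 : Q.P P j (T.W.map f c) :=
      h j _ ⟨T.W.map_mem _ hc.1, (T.map _ _ f _ _ _ hc.2 :)⟩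
    have h4 := Q.push f (l := j) (by rw [hd]) h3
    have h5 : T.W.push f (T.W.map f c) = l • c := by
      apply T.W.tr_ext
      intro z
      rw [T.W.tr_push, ← map_mul, ← one_mul (T.W.map f (c * z)), ← T.W.tr_push, ← hl,
        smul_mul_assoc, one_mul, smul_mul_assoc]
    rw [h5] at h4
    have h6 := Q.smul l⁻¹ h4
    rwa [smul_smul, inv_mul_cancel₀ hl0, one_smul] at h6

/-- **Products of powers of different members.** -/
theorem PP_allIn {Q : ClassPred T.W} {ι : Type*} {x : ι → 𝒱.Obj}
    (hind : ∀ F : Finset ι, Ind (LT T) x F) {A : Set ι} (h : PP T x A P)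
    (hg : ∀ i ∈ A, ∀ n, AllIn T Q (pw (x i) n)) : AllIn T Q P := by
  classical
  induction h with
  | pow i n => exact hg i rfl n
  | @mul i n A P hi hP ih =>
    refine prod_in ?_ (hg i (Set.mem_insert _ _) n) (ih fun j hj =>
      hg j (Set.mem_insert_of_mem _ hj))
    intro D hD
    obtain ⟨D', hD', h1⟩ := hind (insert i hP.finite.toFinset) i (by simp) D hD
    refine ⟨D', hD'.1, ?_, ?_⟩
    · have h2 : PP T x {i} (pw (x i) n) := PP.pow i n
      exact h2.agree hD hD'.1 fun j hj => by rw [Set.mem_singleton_iff.1 hj, h1]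
    · refine hP.kill hD'.1 fun j hj => hD'.2 j ⟨by simp [hj], ?_⟩
      rintro rfl
      exact hi hj
  | isog f hf _ ih => exact allIn_isog hf (ih hg)

end

end Pool.Agent.L5helper28.IH
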