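import Pool.Agent.L5helper28.IH.Geo

/-!
# Hodge classes on the square of a variety with maximal Hodge group
-/

set_option autoImplicit false
set_option linter.unusedSectionVars false

open CategoryTheory AlgebraicGeometry TensorProduct Matrix

universe u

namespace Pool.Agent.L5helper28.IH

open Module
open Pool.Agent.H914 Pool.Agent.H914.VarClass Pool.Agent.H914.VarClass.Obj
  Pool.Agent.H914.WeilCohomology
open Pool.Agent.Y121 Pool.Agent.Y121.AHS Pool.Agent.N996 Pool.Agent.N996.FP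
open Pool.Agent.L5helper28.IF
open Pool.Agent.L5helper28.IG (gC Sk rk rk_apply)
open Pool.Agent.L5helper28.CA (AllIn in_of_retract spH_comm exists_dual_hodge)
open Pool.Agent.Y133.Half (pw ClassPred)

noncomputable section

variable {k : Type u} [Field k] {𝒱 : VarClass k} {ops : CycleOps 𝒱} {T : HodgeTheory ops}
  {X Y P : 𝒱.Obj} {w : ℕ}

set_option maxHeartbeats 400000

theorem corrC {c : T.W.H (X.prod Y)} (x : CV T.W X) : (T.W.corr c).baseChange ℂ x =
    (T.W.push (snd X Y)).baseChange ℂ (((1 : ℂ) ⊗ₜ[T.W.K] c : CV T.W (X.prod Y)) *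
      pb (T := T) (fst X Y) x) := by
  refine cv_ind (P := fun x => (T.W.corr c).baseChange ℂ x =
    (T.W.push (snd X Y)).baseChange ℂ (((1 : ℂ) ⊗ₜ[T.W.K] c : CV T.W (X.prod Y)) *
      pb (T := T) (fst X Y) x)) ?_ ?_ ?_ x
  · rw [map_zero, map_zero, mul_zero, map_zero]
  · intro l y
    rw [LinearMap.baseChange_tmul, pb, LinearMap.baseChange_tmul,
      Algebra.TensorProduct.tmul_mul_tmul, one_mul, LinearMap.baseChange_tmul]
    rfl
  · intro a b ha hb
    rw [map_add, map_add, mul_add, map_add, ha, hb]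

/-- the correspondence of a Hodge class -/
theorem isShift_corr {j : ℕ} {c : T.W.H (X.prod Y)} (hc : IsHodge T (X.prod Y) j c) :
    IsShift T (T.W.corr c) ((j : ℤ) - X.dim) := by
  intro p q x hx
  have h1 : IsType T.pq p q (show HL T.W ℂ (X.prod Y) from pb (T := T) (fst X Y)
    (show CV T.W X from x)) := T.map _ _ (fst X Y) p q x hx
  have h2 : IsType T.pq (j + p) (j + q) (show HL T.W ℂ (X.prod Y) from
    (((1 : ℂ) ⊗ₜ[T.W.K] c : CV T.W (X.prod Y)) * pb (T := T) (fst X Y)
      (show CV T.W X from x))) := T.mul _ _ _ _ _ _ _ hc.2 h1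
  have h3 := T.push (X.prod Y) Y (snd X Y) (j + p) (j + q) (-(X.dim : ℤ)) _ (by
    rw [dim_prod]; push_cast; ring) h2
  have e1 : (j : ℤ) + p + -(X.dim : ℤ) = p + ((j : ℤ) - X.dim) := by ring
  have e2 : (j : ℤ) + q + -(X.dim : ℤ) = q + ((j : ℤ) - X.dim) := by ring
  rw [e1, e2] at h3
  change IsType T.pq _ _ (show HL T.W ℂ Y from (T.W.corr c).baseChange ℂ
    (show CV T.W X from x))
  rw [corrC]
  exact h3

theorem corr_inj {c c' : T.W.H (X.prod Y)} (h : T.W.corr c = T.W.corr c') : c = c' := by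
  apply T.W.tr_ext
  intro z
  refine T.W.kunneth_induction (p := fun z => T.W.tr (X.prod Y) (c * z) =
    T.W.tr (X.prod Y) (c' * z)) ?_ ?_ z
  · intro a b ha hb
    rw [mul_add, mul_add, map_add, map_add, ha, hb]
  · intro i j a _ b _
    have key : ∀ d : T.W.H (X.prod Y), T.W.tr (X.prod Y) (d * (T.W.map (fst X Y) a *
        T.W.map (snd X Y) b)) = T.W.tr Y (T.W.corr d a * b) := by
      intro d
      rw [T.W.corr_apply, T.W.tr_push, mul_assoc]
    rw [key, key, h]

theorem one_tmul_inj {x y : T.W.H X} (h : ((1 : ℂ) ⊗ₜ[T.W.K] x : CV T.W X) = (1 : ℂ) ⊗ₜ[T.W.K] y) :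
    x = y := by
  have h1 : x - y ∈ (⊥ : Submodule T.W.K (T.W.H X)) := by
    refine mem_of_baseChange _ ?_
    rw [TensorProduct.tmul_sub, h, sub_self]
    exact zero_mem _
  exact sub_eq_zero.1 ((Submodule.mem_bot _).1 h1)

theorem qw_inv (hw : Odd w) {a : CV T.W X} (ha : a ∈ inv T X) :
    (qw T X w).baseChange ℂ a = 0 := by
  have h1 := inv_le ha
  clear ha
  rw [Submodule.baseChange_eq_span] at h1
  induction h1 using Submodule.span_induction with
  | mem x hx =>
    obtain ⟨c, hc, rfl⟩ := hx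
    rw [TensorProduct.mk_apply, LinearMap.baseChange_tmul]
    have h2 : qw T X w c = 0 := by
      induction hc using Submodule.span_induction with
      | mem c hc =>
        obtain ⟨j, hj⟩ := hc
        refine H914.proj_ne (T.W.isInternal X) hj.1 ?_
        rintro rfl
        exact (Nat.not_odd_iff_even.2 (even_two_mul j)) hw
      | zero => rw [map_zero]
      | add x y _ _ hx hy => rw [map_add, hx, hy, add_zero]
      | smul r x _ hx => rw [map_smul, hx, smul_zero]
    rw [h2, TensorProduct.tmul_zero]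
  | zero => rw [map_zero]
  | add x y _ _ hx hy => rw [map_add, hx, hy, add_zero]
  | smul c x _ hx => rw [map_smul, hx, smul_zero]

/-- the correspondences of Hodge classes are scalars in the odd degree -/
theorem scalar (hX : MxC T X w)
    (hsum : ∀ x : T.W.H X, ∃ a ∈ spH T X, ∃ v ∈ T.W.gr X w, x = a + v)
    {A : T.W.H X →ₗ[T.W.K] T.W.H X}
    (hA : ∀ D ∈ LT T, ∀ x : CV T.W X, D X (A.baseChange ℂ x) = A.baseChange ℂ (D X x)) :
    ∃ r : T.W.K, ∀ x ∈ T.W.gr X w, A x = r • x := by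
  obtain ⟨hw, hg, ψ, hψ, hmx⟩ := hX
  haveI : FiniteDimensional ℂ (CV T.W X) := Module.Finite.of_basis (rb T.W X)
  have hsy := sy_om hψ hw
  by_cases hV : ∃ x ∈ T.W.gr X w, x ≠ 0
  swap
  · push Not at hV
    exact ⟨0, fun x hx => by rw [hV x hx, map_zero, smul_zero]⟩
  obtain ⟨x0, hx0, hx0'⟩ := hV
  -- decomposition
  have hsumC : ∀ z : CV T.W X, ∃ a ∈ inv T X, ∃ v ∈ gC T X w, z = a + v := by
    intro z
    refine cv_ind (P := fun z => ∃ a ∈ inv T X, ∃ v ∈ gC T X w, z = a + v) ?_ ?_ ?_ z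
    · exact ⟨0, zero_mem _, 0, zero_mem _, (add_zero _).symm⟩
    · intro l x
      obtain ⟨a, ha, v, hv, rfl⟩ := hsum x
      refine ⟨l • ((1 : ℂ) ⊗ₜ[T.W.K] a), Submodule.smul_mem _ _ (sp_inv ha),
        l • ((1 : ℂ) ⊗ₜ[T.W.K] v),
        Submodule.smul_mem _ _ (Submodule.tmul_mem_baseChange_of_mem (1 : ℂ) hv), ?_⟩
      rw [TensorProduct.smul_tmul', TensorProduct.smul_tmul', smul_eq_mul, mul_one,
        TensorProduct.tmul_add]
    · rintro x y ⟨a, ha, v, hv, rfl⟩ ⟨b, hb, u, hu, rfl⟩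
      exact ⟨a + b, add_mem ha hb, v + u, add_mem hv hu, by abel⟩
  let B : End ℂ ↥(gC T X w) := LinearMap.codRestrict (gC T X w)
    ((qw T X w).baseChange ℂ ∘ₗ A.baseChange ℂ ∘ₗ (gC T X w).subtype) fun v => qw_mem _
  have hB : ∀ v, (B v : CV T.W X) = (qw T X w).baseChange ℂ (A.baseChange ℂ (v : CV T.W X)) :=
    fun v => rfl
  have hcomm : ∀ S, Sk (om hψ w) S → ∀ v, B (S v) = S (B v) := by
    intro S hS v
    obtain ⟨D, hD, h1⟩ := hmx S hS
    refine Subtype.ext ?_
    rw [← h1, hB, hB, ← h1, ← hA D hD, LT_qw hψ hD]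
  have hAB : ∀ v : ↥(gC T X w), ∃ a ∈ inv T X, A.baseChange ℂ (v : CV T.W X) = a + B v := by
    intro v
    obtain ⟨a, ha, u, hu, h1⟩ := hsumC (A.baseChange ℂ (v : CV T.W X))
    refine ⟨a, ha, ?_⟩
    rw [hB, h1, map_add, qw_inv hw ha, qw_same hu, zero_add]
  let v0 : ↥(gC T X w) := ⟨(1 : ℂ) ⊗ₜ[T.W.K] x0, Submodule.tmul_mem_baseChange_of_mem (1 : ℂ) hx0⟩
  have hv0 : v0 ≠ 0 := by
    intro h0
    have h1 : ((1 : ℂ) ⊗ₜ[T.W.K] x0 : CV T.W X) = (1 : ℂ) ⊗ₜ[T.W.K] (0 : T.W.H X) := by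
      rw [TensorProduct.tmul_zero]
      exact congrArg Subtype.val h0
    exact hx0' (one_tmul_inj h1)
  obtain ⟨l, hl⟩ : ∃ l : ℂ, B v0 = l • v0 := by
    obtain ⟨v, hv⟩ : ∃ v, om hψ w v0 v ≠ 0 := by
      by_contra hcon
      push Not at hcon
      exact hv0 (hsy.nd' hcon)
    have h1 := hcomm _ (hsy.sk_rk v0) v
    rw [rk_apply, rk_apply, map_smul] at h1
    refine ⟨(om hψ w v0 v)⁻¹ * om hψ w v0 (B v), ?_⟩
    rw [mul_smul, ← h1, smul_smul, inv_mul_cancel₀ hv, one_smul]
  have hBl : ∀ u, B u = l • u := by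
    intro u
    obtain ⟨S, hS, rfl⟩ := hsy.exists_to hv0 u
    rw [hcomm S hS, hl, map_smul]
  have hAl : ∀ u ∈ gC T X w, A.baseChange ℂ u = l • u := by
    intro u hu
    obtain ⟨S, hS, h1⟩ := hsy.exists_to hv0 ⟨u, hu⟩
    obtain ⟨D, hD, h2⟩ := hmx S hS
    obtain ⟨a, ha, h3⟩ := hAB v0
    have h4 : D X (v0 : CV T.W X) = u := by
      rw [h2, h1]
    rw [← h4, ← hA D hD, h3, map_add, ha D hD, zero_add, hBl, Submodule.coe_smul, map_smul]
  obtain ⟨φ, hφ⟩ : ∃ φ : Module.Dual T.W.K (T.W.H X), φ x0 ≠ 0 := by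
    by_contra hcon
    push Not at hcon
    exact hx0' ((Module.forall_dual_apply_eq_zero_iff T.W.K x0).1 hcon)
  have h5 := hAl _ (Submodule.tmul_mem_baseChange_of_mem (1 : ℂ) hx0)
  rw [LinearMap.baseChange_tmul] at h5
  have h6 : algebraMap T.W.K ℂ (φ (A x0)) = l * algebraMap T.W.K ℂ (φ x0) := by
    have h7 := congrArg (fC φ) h5
    rw [map_smul, fC_tmul, fC_tmul, mul_one, mul_one, smul_eq_mul] at h7
    exact h7
  have h8 : l = algebraMap T.W.K ℂ (φ (A x0) / φ x0) := by
    rw [map_div₀, h6, mul_div_assoc, div_self, mul_one]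
    intro h9
    exact hφ ((map_eq_zero (algebraMap T.W.K ℂ)).1 h9)
  refine ⟨φ (A x0) / φ x0, fun x hx => one_tmul_inj ?_⟩
  have h9 := hAl _ (Submodule.tmul_mem_baseChange_of_mem (1 : ℂ) hx)
  rw [LinearMap.baseChange_tmul, h8] at h9
  rw [h9, TensorProduct.tmul_smul, algebraMap_smul]

/-- **The square.** -/
theorem square {Q : ClassPred T.W} (hX : MxC T X w)
    (hsum : ∀ x : T.W.H X, ∃ a ∈ spH T X, ∃ v ∈ T.W.gr X w, x = a + v) (h1 : AllIn T Q X) :
    AllIn T Q (X.prod X) := by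
  intro j c hc
  have hw := hX.1
  have hS : spH T X ≤ Q.sp X := by
    refine Submodule.span_le.2 ?_
    rintro x ⟨i, hi⟩
    exact ClassPred.sp_of (h1 i x hi)
  obtain ⟨r, hr⟩ := scalar hX hsum (A := T.W.corr c) fun D hD x => LT_map hD (isShift_corr hc) x
  let δ : T.W.H (X.prod X) := T.W.push (diag X) 1
  let c' : T.W.H (X.prod X) := c - r • δ
  let A' : T.W.H X →ₗ[T.W.K] T.W.H X := T.W.corr c - r • LinearMap.id
  have hc' : T.W.corr c' = A' := by
    refine LinearMap.ext fun x => ?_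
    have h2 : T.W.corr c' x = T.W.corr c x - r • T.W.corr δ x := by
      have h3 : c' = c + (-r) • δ := by
        change c - r • δ = _
        rw [neg_smul, sub_eq_add_neg]
      rw [h3, T.W.corr_add, T.W.corr_smul, LinearMap.add_apply, LinearMap.smul_apply, neg_smul,
        sub_eq_add_neg]
    rw [h2, T.W.corr_diag, one_mul]
    rfl
  have hA'v : ∀ v ∈ T.W.gr X w, A' v = 0 := by
    intro v hv
    change T.W.corr c v - r • v = 0
    rw [hr v hv, sub_self]
  have hA'a : ∀ a ∈ spH T X, A' a ∈ spH T X := by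
    intro a ha
    have h2 : T.W.corr c a ∈ spH T X := by
      refine mem_of_baseChange _ (inv_le fun D hD => ?_)
      have h3 := LT_map hD (isShift_corr hc) ((1 : ℂ) ⊗ₜ[T.W.K] a)
      rw [LinearMap.baseChange_tmul, sp_inv ha D hD, map_zero] at h3
      exact h3
    exact sub_mem h2 (Submodule.smul_mem _ _ ha)
  obtain ⟨N, a, b, ha, hb, hab, hspan⟩ := exists_dual_hodge T X
  let c'' : T.W.H (X.prod X) := ∑ i, T.W.map (fst X X) (b i) * T.W.map (snd X X) (A' (a i))
  have hc'' : T.W.corr c'' = A' := by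
    refine LinearMap.ext fun x => ?_
    have h2 : ∀ x, T.W.corr c'' x = ∑ i, T.W.tr X (b i * x) • A' (a i) := by
      intro x
      rw [T.W.corr_apply]
      change T.W.push (snd X X) ((∑ i, T.W.map (fst X X) (b i) * T.W.map (snd X X) (A' (a i))) *
        T.W.map (fst X X) x) = _
      rw [Finset.sum_mul, map_sum]
      refine Finset.sum_congr rfl fun i _ => ?_
      rw [mul_assoc, spH_comm (hA'a _ (ha i)) (snd X X) (T.W.map (fst X X) x), ← mul_assoc,
        ← map_mul, T.W.push_snd]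
    obtain ⟨y, hy, v, hv, rfl⟩ := hsum x
    rw [h2]
    have h3' : ∀ z ∈ spH T X, T.W.tr X (z * v) = 0 := by
      intro z h4
      induction h4 using Submodule.span_induction with
      | mem z hz =>
        obtain ⟨j, hj⟩ := hz
        refine T.W.tr_eq_zero (T.W.mul_mem hj.1 hv) ?_
        intro h5
        have h6 : Even (2 * j + w) := by rw [h5]; exact even_two_mul _
        rw [Nat.even_add] at h6
        exact (Nat.not_even_iff_odd.2 hw) (h6.1 (even_two_mul j))
      | zero => rw [zero_mul, map_zero]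
      | add x y _ _ hx hy => rw [add_mul, map_add, hx, hy, add_zero]
      | smul r x _ hx => rw [smul_mul_assoc, map_smul, hx, smul_zero]
    have h3 : ∀ i, T.W.tr X (b i * v) = 0 := fun i => h3' _ (hb i)
    have h4 : ∑ i, T.W.tr X (b i * (y + v)) • A' (a i) =
        ∑ i, T.W.tr X (b i * y) • A' (a i) := by
      refine Finset.sum_congr rfl fun i _ => ?_
      rw [mul_add, map_add, h3, add_zero]
    rw [h4, map_add, hA'v v hv, add_zero]
    suffices h5 : ∀ y ∈ Submodule.span T.W.K (Set.range a),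
        ∑ i, T.W.tr X (b i * y) • A' (a i) = A' y from h5 y (hspan y hy)
    clear h4 hy
    intro y hy
    induction hy using Submodule.span_induction with
    | mem z hz =>
      obtain ⟨l, rfl⟩ := hz
      rw [Finset.sum_eq_single l]
      · have h6 := spH_comm (hb l) (𝟙 X) (a l)
        rw [T.W.map_id] at h6
        rw [h6, hab, if_pos rfl, one_smul]
      · intro i _ hil
        have h6 := spH_comm (hb i) (𝟙 X) (a l)
        rw [T.W.map_id] at h6
        rw [h6, hab, if_neg (Ne.symm hil), zero_smul]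
      · intro h
        exact absurd (Finset.mem_univ _) h
    | zero => simp
    | add x y _ _ hx hy =>
      simp only [mul_add, map_add, add_smul, Finset.sum_add_distrib]
      rw [hx, hy]
    | smul r x _ hx =>
      simp only [mul_smul_comm, map_smul, smul_eq_mul, mul_smul]
      rw [← Finset.smul_sum, hx]
  have hcc : c' = c'' := corr_inj (hc'.trans hc''.symm)
  have h3 : c ∈ Q.sp (X.prod X) := by
    have h4 : c = c'' + r • δ := by
      rw [← hcc]
      exact (sub_add_cancel c (r • δ)).symm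
    rw [h4]
    refine add_mem (sum_mem fun i _ => ?_) (Submodule.smul_mem _ _ ?_)
    · exact Q.sys.mul (Q.sys.map _ (hS (hb i))) (Q.sys.map _ (hS (hA'a _ (ha i))))
    · exact Q.sys.push (diag X) (Q.sys.one X)
  have h4 := ClassPred.sp_proj h3 j
  rwa [H914.proj_same _ hc.1] at h4

/-- **Powers.** -/
theorem allIn_pw_max {Q : ClassPred T.W} (hX : MxC T X w)
    (hsum : ∀ x : T.W.H X, ∃ a ∈ spH T X, ∃ v ∈ T.W.gr X w, x = a + v) (h1 : AllIn T Q X)
    (n : ℕ) : AllIn T Q (pw X n) :=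
  allIn_pw (good_max hX) hX.2.1 (square hX hsum h1) n

end

end Pool.Agent.L5helper28.IH
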