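import Pool.Agent.L5helper28.IG.Rat
import Pool.Agent.L5helper28.IG.Prod

/-!
# The form in odd degree
-/

set_option autoImplicit false
set_option linter.unusedSectionVars false

open CategoryTheory AlgebraicGeometry TensorProduct Matrix

universe u

namespace Pool.Agent.L5helper28.IH

open Module
open Pool.Agent.H914 Pool.Agent.H914.VarClass Pool.Agent.H914.VarClass.Obj
  Pool.Agent.H914.WeilCohomology
open Pool.Agent.Y121 Pool.Agent.Y121.AHS Pool.Agent.N996 Pool.Agent.N996.FP
open Pool.Agent.L5helper28.IF Pool.Agent.L5helper28.IG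

noncomputable section

variable {k : Type u} [Field k] {𝒱 : VarClass k} {ops : CycleOps 𝒱} {T : HodgeTheory ops}
  {X Y P : 𝒱.Obj} {w : ℕ}

set_option maxHeartbeats 400000

/-- induction over the types of a degree -/
theorem gw_ind {C : CV T.W X → Prop} (h0 : C 0)
    (h1 : ∀ (p q : ℤ) (x : CV T.W X), p + q = w → IsType T.pq p q (show HL T.W ℂ X from x) → C x)
    (h2 : ∀ a b, C a → C b → C (a + b)) {x : CV T.W X} (hx : x ∈ gC T X w) : C x := by
  have h3 := gr_type hx
  refine Submodule.iSup_induction (motive := fun x : HL T.W ℂ X => C x) _ h3 ?_ h0 h2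
  intro r y hy
  exact h1 r.1.1 r.1.2 y r.2 hy

/-- the operator which acts on the type `r` by `f r` -/
def du (f : ℤ × ℤ → ℂ) (X : 𝒱.Obj) : Module.End ℂ (CV T.W X) :=
  AH.dia (AH.isInternal (toH T) X) f

theorem du_apply (f : ℤ × ℤ → ℂ) {a b : ℤ} {x : CV T.W X}
    (hx : IsType T.pq a b (show HL T.W ℂ X from x)) : du (T := T) f X x = f (a, b) • x :=
  AH.dia_apply (AH.isInternal (toH T) X) _ (i := (a, b)) hx

/-- the projection to a type -/
theorem du_type (p q : ℤ) (x : CV T.W X) : IsType T.pq p q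
    (show HL T.W ℂ X from du (T := T) (fun r => if r = (p, q) then 1 else 0) X x) := by
  refine hop_ind (T := T) (P := fun x => IsType T.pq p q
    (show HL T.W ℂ X from du (T := T) (fun r => if r = (p, q) then 1 else 0) X x)) ?_ ?_ ?_ x
  · intro a b x hx
    rw [du_apply _ hx]
    split_ifs with h
    · rw [one_smul]
      obtain ⟨rfl, rfl⟩ := Prod.mk.inj h
      exact hx
    · rw [zero_smul]
      exact zero_mem (T.pq X p q)
  · intro a b ha hb
    rw [map_add]
    exact add_mem (S := Submodule ℂ (HL T.W ℂ X)) (s := T.pq X p q) ha hb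
  · rw [map_zero]
    exact zero_mem (T.pq X p q)

/-- the type of an eigenvector of given degree -/
theorem type_eig {p q : ℤ} (hpq : p + q = w) {x : CV T.W X} (hx : x ∈ gC T X w)
    (h : hop T X x = ((p - q : ℤ) : ℂ) • x) : IsType T.pq p q (show HL T.W ℂ X from x) := by
  let f : ℤ × ℤ → ℂ := fun r => if r.1 - r.2 = p - q then 0 else
    (((r.1 - r.2 : ℤ) : ℂ) - ((p - q : ℤ) : ℂ))⁻¹
  have key : ∀ x ∈ gC T X w, du (T := T) f X (hop T X x - ((p - q : ℤ) : ℂ) • x) =
      x - du (T := T) (fun r => if r = (p, q) then 1 else 0) X x := by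
    intro x hx
    refine gw_ind (T := T) (w := w) (C := fun x => du (T := T) f X
      (hop T X x - ((p - q : ℤ) : ℂ) • x) =
      x - du (T := T) (fun r => if r = (p, q) then 1 else 0) X x) ?_ ?_ ?_ hx
    · simp only [map_zero, smul_zero, sub_zero]
    · intro a b x hab hx
      rw [hop_pq hx, ← sub_smul, map_smul, du_apply _ hx, du_apply _ hx, smul_smul]
      by_cases h1 : a - b = p - q
      · have h2 : a = p ∧ b = q := by omega
        obtain ⟨rfl, rfl⟩ := h2
        simp [f]
      · have h2 : ¬ ((a, b) : ℤ × ℤ) = (p, q) := by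
          intro h3
          obtain ⟨rfl, rfl⟩ := Prod.mk.inj h3
          exact h1 rfl
        have h3 : ((a - b : ℤ) : ℂ) - ((p - q : ℤ) : ℂ) ≠ 0 := by
          intro h4
          apply h1
          exact_mod_cast sub_eq_zero.1 h4
        rw [if_neg h2, zero_smul, sub_zero]
        change ((((a - b : ℤ) : ℂ) - ((p - q : ℤ) : ℂ)) * (if a - b = p - q then 0 else
          (((a - b : ℤ) : ℂ) - ((p - q : ℤ) : ℂ))⁻¹)) • x = x
        rw [if_neg h1, mul_inv_cancel₀ h3, one_smul]
    · intro a b ha hb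
      simp only [map_add, smul_add]
      rw [add_sub_add_comm, map_add, ha, hb, add_sub_add_comm]
  have h1 := key x hx
  rw [h, sub_self, map_zero] at h1
  have h2 := du_type (T := T) p q x
  rw [← sub_eq_zero.1 h1.symm] at h2
  exact h2

/-! ### Projections -/

/-- the projection to the degree -/
def qw (T : HodgeTheory ops) (X : 𝒱.Obj) (w : ℕ) : Module.End T.W.K (T.W.H X) :=
  H914.proj (T.W.isInternal X) w

theorem qw_ne {i : ℕ} (hi : i ≠ w) {x : CV T.W X} (hx : x ∈ gC T X i) :
    (qw T X w).baseChange ℂ x = 0 := by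
  rw [gC, Submodule.baseChange_eq_span] at hx
  induction hx using Submodule.span_induction with
  | mem x hx =>
    obtain ⟨c, hc, rfl⟩ := hx
    rw [TensorProduct.mk_apply, LinearMap.baseChange_tmul]
    have h1 : qw T X w c = 0 := H914.proj_ne (T.W.isInternal X) hc hi
    rw [h1, TensorProduct.tmul_zero]
  | zero => rw [map_zero]
  | add x y _ _ hx hy => rw [map_add, hx, hy, add_zero]
  | smul c x _ hx => rw [map_smul, hx, smul_zero]

theorem qw_same {x : CV T.W X} (hx : x ∈ gC T X w) : (qw T X w).baseChange ℂ x = x := by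
  rw [gC, Submodule.baseChange_eq_span] at hx
  induction hx using Submodule.span_induction with
  | mem x hx =>
    obtain ⟨c, hc, rfl⟩ := hx
    rw [TensorProduct.mk_apply, LinearMap.baseChange_tmul]
    have h1 : qw T X w c = c := H914.proj_same (T.W.isInternal X) hc
    rw [h1]
  | zero => rw [map_zero]
  | add x y _ _ hx hy => rw [map_add, hx, hy]
  | smul c x _ hx => rw [map_smul, hx]

theorem isShift_qw {ψ : RForm T.W X} (hψ : IsPolarisation T X ψ) : IsShift T (qw T X w) 0 := by
  intro p q x hx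
  rw [add_zero, add_zero]
  change IsType T.pq p q (show HL T.W ℂ X from (qw T X w).baseChange ℂ (show CV T.W X from x))
  by_cases hx0 : x = 0
  · have h1 : (qw T X w).baseChange ℂ (show CV T.W X from x) = 0 := by
      rw [hx0]
      exact map_zero ((qw T X w).baseChange ℂ)
    rw [h1]
    exact zero_mem (T.pq X p q)
  · obtain ⟨h1, h2, h3, h4⟩ := hψ.range p q x hx hx0
    obtain ⟨i, hi⟩ : ∃ i : ℕ, p + q = (i : ℤ) := ⟨(p + q).toNat, by omega⟩
    by_cases h5 : i = w
    · subst h5
      rw [qw_same (type_gr hi hx)]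
      exact hx
    · rw [qw_ne h5 (type_gr hi hx)]
      exact zero_mem (T.pq X p q)

theorem LT_qw {ψ : RForm T.W X} (hψ : IsPolarisation T X ψ)
    {D : Ops fun X : 𝒱.Obj => CV T.W X} (hD : D ∈ LT T) (x : CV T.W X) :
    D X ((qw T X w).baseChange ℂ x) = (qw T X w).baseChange ℂ (D X x) :=
  LT_map hD (isShift_qw hψ) x

theorem qw_mem (x : CV T.W X) : (qw T X w).baseChange ℂ x ∈ gC T X w := by
  refine cv_ind (P := fun x => (qw T X w).baseChange ℂ x ∈ gC T X w) ?_ ?_ ?_ x
  · rw [map_zero]; exact zero_mem _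
  · intro l c
    rw [LinearMap.baseChange_tmul]
    exact Submodule.tmul_mem_baseChange_of_mem l (proj_mem (T.W.isInternal X) w c)
  · intro a b ha hb
    rw [map_add]; exact add_mem ha hb

theorem LT_gw {ψ : RForm T.W X} (hψ : IsPolarisation T X ψ)
    {D : Ops fun X : 𝒱.Obj => CV T.W X} (hD : D ∈ LT T) {x : CV T.W X} (hx : x ∈ gC T X w) :
    D X x ∈ gC T X w := by
  have h1 := LT_qw (w := w) hψ hD x
  rw [qw_same hx] at h1
  rw [h1]
  exact qw_mem _

/-! ### The form -/

section form

variable {ψ : RForm T.W X} (hψ : IsPolarisation T X ψ)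

/-- the form is antisymmetric in odd degree -/
theorem B_anti (hw : Odd w) {u v : CV T.W X} (hu : u ∈ gC T X w) (hv : v ∈ gC T X w) :
    (polS hψ).B u v = -(polS hψ).B v u := by
  haveI : FiniteDimensional ℂ (CV T.W X) := Module.Finite.of_basis (rb T.W X)
  obtain ⟨n, e, wt, he⟩ := exists_eigenbasis (polS hψ).diag
  have key : ∀ (p q : ℤ) (a b : CV T.W X), p + q = w →
      IsType T.pq p q (show HL T.W ℂ X from a) → IsType T.pq p q (show HL T.W ℂ X from b) →
      (polS hψ).B b (Pool.Agent.N179.DB.sl (rb T.W X) cc a) =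
        -(polS hψ).B (Pool.Agent.N179.DB.sl (rb T.W X) cc a) b := by
    intro p q a b hpq ha hb
    have h1 := sq_symm (polS hψ) he a b
    rw [IF.sq, IF.sq, dg_eig he _ (hop_pq ha), dg_eig he _ (hop_pq hb), map_smul, map_smul,
      LinearMap.smul_apply, LinearMap.smul_apply, smul_eq_mul, smul_eq_mul, map_mul,
      map_zpow₀, Complex.conj_I] at h1
    have hodd : Odd (p - q) := by
      obtain ⟨m, hm⟩ := hw
      refine ⟨m - q, ?_⟩
      have h5 : p + q = 2 * (m : ℤ) + 1 := by rw [hpq, hm]; push_cast; ring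
      omega
    rw [hodd.neg_zpow] at h1
    have h2 : (starRingEnd ℂ) ((polS hψ).B a (Pool.Agent.N179.DB.sl (rb T.W X) cc b)) =
        (polS hψ).B (Pool.Agent.N179.DB.sl (rb T.W X) cc a) b := by
      have h3 := (polS hψ).rat cc a (Pool.Agent.N179.DB.sl (rb T.W X) cc b)
      rw [sl_cc] at h3
      exact h3.symm
    rw [h2] at h1
    have h3 : Complex.I ^ (p - q) * ((polS hψ).B b (Pool.Agent.N179.DB.sl (rb T.W X) cc a) +
        (polS hψ).B (Pool.Agent.N179.DB.sl (rb T.W X) cc a) b) = 0 := by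
      rw [mul_add, ← h1]
      ring
    exact eq_neg_of_add_eq_zero_left ((mul_eq_zero.1 h3).resolve_left
      (zpow_ne_zero _ Complex.I_ne_zero))
  refine gw_ind (T := T) (w := w) (C := fun u => (polS hψ).B u v = -(polS hψ).B v u) ?_ ?_ ?_ hu
  · rw [map_zero, map_zero, LinearMap.zero_apply, neg_zero]
  · intro p q u hpq hu
    refine gw_ind (T := T) (w := w) (C := fun v => (polS hψ).B u v = -(polS hψ).B v u) ?_ ?_ ?_ hv
    · rw [map_zero, map_zero, LinearMap.zero_apply, neg_zero]
    · intro r s v hrs hv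
      by_cases h : r = q
      · subst h
        obtain rfl : s = p := by omega
        have h1 : IsType T.pq s r (show HL T.W ℂ X from Pool.Agent.N179.DB.sl (rb T.W X) cc v) := by
          rw [sl_sig]
          exact (isPHS hψ).cnj r s v hv
        have h2 := key s r _ _ hpq h1 hu
        rw [sl_cc] at h2
        exact h2
      · rw [B_orth' hψ hu hv (Or.inl h), B_orth' hψ hv hu (Or.inr fun h' => h h'.symm), neg_zero]
    · intro a b ha hb
      rw [map_add, map_add, LinearMap.add_apply, ha, hb, neg_add]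
  · intro a b ha hb
    rw [map_add, map_add, LinearMap.add_apply, ha, hb, neg_add]

/-- the form on `H^w` -/
def om (w : ℕ) : ↥(gC T X w) →ₗ[ℂ] ↥(gC T X w) →ₗ[ℂ] ℂ :=
  (polS hψ).B.domRestrict₁₂ (gC T X w) (gC T X w)

theorem om_apply (u v : ↥(gC T X w)) : om hψ w u v = (polS hψ).B u v := rfl

theorem sy_om (hw : Odd w) : Sy (om hψ w) where
  alt v := by
    rw [om_apply]
    have h1 := B_anti hψ hw v.2 v.2
    exact self_eq_neg.1 h1
  nd u hu := by
    have h1 : ∀ v ∈ gC T X w, (polS hψ).B u v = 0 := by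
      intro v hv
      rw [B_anti hψ hw u.2 hv, neg_eq_zero]
      exact hu ⟨v, hv⟩
    refine Subtype.ext (B_nondeg (polS hψ) _ fun v => ?_)
    refine hop_ind (P := fun v => (polS hψ).B u v = 0) ?_ ?_ ?_ v
    · intro r s v hv
      by_cases hrs : r + s = w
      · exact h1 v (type_gr hrs hv)
      · refine gw_ind (T := T) (w := w) (C := fun u => (polS hψ).B u v = 0) ?_ ?_ ?_ u.2
        · rw [map_zero, LinearMap.zero_apply]
        · intro p q u hpq hu
          refine B_orth' hψ hu hv ?_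
          by_contra hcon
          push Not at hcon
          omega
        · intro a b ha hb
          rw [map_add, LinearMap.add_apply, ha, hb, add_zero]
    · intro a b ha hb
      rw [map_add, ha, hb, add_zero]
    · rw [map_zero]

theorem sk_LT {D : Ops fun X : 𝒱.Obj => CV T.W X} (hD : D ∈ LT T) {A : End ℂ ↥(gC T X w)}
    (hA : ∀ v, (A v : CV T.W X) = D X v) : Sk (om hψ w) A := by
  intro x y
  rw [om_apply, om_apply, hA, hA]
  exact skew_LL (polS hψ) hD _ _

/-- the restriction to `H^w` -/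
def rs1 (w : ℕ) {D : Ops fun X : 𝒱.Obj => CV T.W X} (hD : D ∈ LT T) : End ℂ ↥(gC T X w) :=
  (D X).restrict fun _ hx => LT_gw hψ hD hx

theorem rs1_apply {D : Ops fun X : 𝒱.Obj => CV T.W X} (hD : D ∈ LT T) (v : ↥(gC T X w)) :
    (rs1 hψ w hD v : CV T.W X) = D X v := rfl

end form

/-- Every skew operator on `H^w` comes from the Lie algebra. -/
def MxC (T : HodgeTheory ops) (X : 𝒱.Obj) (w : ℕ) : Prop :=
  Odd w ∧ (∀ z : T.W.H X, z ∈ Algebra.adjoin T.W.K ((spH T X : Set (T.W.H X)) ∪ T.W.gr X w)) ∧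
    ∃ (ψ : RForm T.W X) (hψ : IsPolarisation T X ψ), ∀ A : End ℂ ↥(gC T X w), Sk (om hψ w) A →
      ∃ D ∈ LT T, ∀ v : ↥(gC T X w), D X v = A v

/-- elements of the Lie algebra which vanish on `H^w` -/
theorem kill_gen (hg : ∀ z : T.W.H X, z ∈ Algebra.adjoin T.W.K ((spH T X : Set (T.W.H X)) ∪
      T.W.gr X w)) {D : Ops fun X : 𝒱.Obj => CV T.W X} (hD : D ∈ LT T)
    (h0 : ∀ v ∈ gC T X w, D X v = 0) : D X = 0 := by
  have h1 : ∀ x ∈ Algebra.adjoin T.W.K ((spH T X : Set (T.W.H X)) ∪ T.W.gr X w),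
      D X ((1 : ℂ) ⊗ₜ[T.W.K] x) = 0 := by
    intro x hx
    induction hx using Algebra.adjoin_induction with
    | mem x hx =>
      rcases hx with hx | hx
      · exact sp_inv hx D hD
      · exact h0 _ (Submodule.tmul_mem_baseChange_of_mem (1 : ℂ) hx)
    | algebraMap r =>
      have h3 : ((1 : ℂ) ⊗ₜ[T.W.K] (algebraMap T.W.K (T.W.H X) r) : CV T.W X) =
          (algebraMap T.W.K ℂ r) • (1 : CV T.W X) := by
        rw [Algebra.algebraMap_eq_smul_one, TensorProduct.tmul_smul,
          Algebra.TensorProduct.one_def, TensorProduct.smul_tmul', TensorProduct.smul_tmul',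
          Algebra.smul_def, smul_eq_mul]
      have h2 : D X (1 : CV T.W X) = 0 := by
        have h4 := LT_mul hD X 1 1
        rw [mul_one, mul_one, one_mul] at h4
        exact left_eq_add.1 h4
      rw [h3, map_smul, h2, smul_zero]
    | add x y _ _ hx hy => rw [TensorProduct.tmul_add, map_add, hx, hy, add_zero]
    | mul x y _ _ hx hy =>
      have h3 : ((1 : ℂ) ⊗ₜ[T.W.K] (x * y) : CV T.W X) =
          ((1 : ℂ) ⊗ₜ[T.W.K] x) * ((1 : ℂ) ⊗ₜ[T.W.K] y) := by
        rw [Algebra.TensorProduct.tmul_mul_tmul, one_mul]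
      rw [h3, LT_mul hD, hx, hy, zero_mul, mul_zero, add_zero]
  refine LinearMap.ext fun z => ?_
  refine cv_ind (P := fun z => D X z = (0 : End ℂ (CV T.W X)) z) ?_ ?_ ?_ z
  · rw [map_zero, map_zero]
  · intro l x
    have h3 : (l ⊗ₜ[T.W.K] x : CV T.W X) = l • ((1 : ℂ) ⊗ₜ[T.W.K] x) := by
      rw [TensorProduct.smul_tmul', smul_eq_mul, mul_one]
    rw [h3, map_smul, h1 x (hg x), smul_zero]
    rfl
  · intro x y hx hy
    rw [map_add, map_add, hx, hy]

end

end Pool.Agent.L5helper28.IH
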