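import Pool.Agent.L5helper28.IG.Alg

/-!
# Words with coefficients
-/

set_option autoImplicit false
set_option linter.unusedSectionVars false

open Matrix

namespace Pool.Agent.L5helper28.IH

open Pool.Agent.L5helper28.IG (wd wd_zero wd_succ Idx rho lift_inv sum_aux FFT InvFun InvForm
  sum_match_mem)

noncomputable section

variable {R : Type} [Fintype R] [DecidableEq R] {J : Type} {A : Type*} [Ring A] [Algebra ℂ A]
  {u : J → R → A}

section piw

variable {ι : Type} [Fintype ι] {N : ι → ℕ} (α : ι → A) (a : ∀ p, Fin (N p) → J)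

variable (u) in
/-- the linear combination of words with coefficients -/
def piw : (Idx R N → ℂ) →ₗ[ℂ] A where
  toFun F := ∑ p, α p * ∑ I : Fin (N p) → R, F ⟨p, I⟩ • wd u (a p) I
  map_add' F G := by
    rw [← Finset.sum_add_distrib]
    refine Finset.sum_congr rfl fun p _ => ?_
    rw [← mul_add, ← Finset.sum_add_distrib]
    congr 1
    exact Finset.sum_congr rfl fun I _ => add_smul _ _ _
  map_smul' c F := by
    rw [RingHom.id_apply, Finset.smul_sum]
    refine Finset.sum_congr rfl fun p _ => ?_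
    rw [← mul_smul_comm, Finset.smul_sum]
    congr 1
    exact Finset.sum_congr rfl fun I _ => mul_smul _ _ _

theorem piw_apply (F : Idx R N → ℂ) :
    piw u α a F = ∑ p, α p * ∑ I : Fin (N p) → R, F ⟨p, I⟩ • wd u (a p) I := rfl

theorem piw_der {D : A →ₗ[ℂ] A} (hD : ∀ x y, D (x * y) = D x * y + x * D y) {g : Matrix R R ℂ}
    (hu : ∀ i y, D (u i y) = ∑ x, g x y • u i x) (hα : ∀ p, D (α p) = 0) (F : Idx R N → ℂ) :
    D (piw u α a F) = piw u α a (rho N g F) := by
  rw [piw_apply, piw_apply, map_sum]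
  refine Finset.sum_congr rfl fun p _ => ?_
  rw [hD, hα, zero_mul, zero_add]
  congr 1
  exact sum_aux hD hu (a p) (fun I => F ⟨p, I⟩)

end piw

theorem exists_piw {C : Set A} {c : A} (hc : c ∈ Submodule.span ℂ
    {x | ∃ α ∈ C, ∃ (n : ℕ) (a : Fin n → J) (I : Fin n → R), x = α * wd u a I}) :
    ∃ (r : ℕ) (N : Fin r → ℕ) (α : Fin r → A) (a : ∀ p, Fin (N p) → J) (F : Idx R N → ℂ),
      (∀ p, α p ∈ C) ∧ piw u α a F = c := by
  classical
  obtain ⟨r, f, g, h⟩ := Submodule.mem_span_set'.1 hc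
  choose α hα N a I hI using fun i => (g i).2
  refine ⟨r, N, α, a, fun ω => if ω.2 = I ω.1 then f ω.1 else 0, hα, ?_⟩
  rw [← h, piw_apply]
  refine Finset.sum_congr rfl fun p _ => ?_
  rw [Finset.sum_eq_single (I p)]
  · simp only [if_true, hI p, mul_smul_comm]
  · intro I' _ hne
    simp only [if_neg hne, zero_smul]
  · intro h
    exact absurd (Finset.mem_univ _) h

/-- **The invariants are generated by forms.** -/
theorem mem_of_inv {C : Set A} {S : Set (Matrix R R ℂ)} (hS : ∀ g ∈ S, gᴴ ∈ S) (hF : FFT S)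
    (hu : ∀ i j x y, u i x * u j y = -(u j y * u i x)) {c : A} (hc : c ∈ Submodule.span ℂ
      {x | ∃ α ∈ C, ∃ (n : ℕ) (a : Fin n → J) (I : Fin n → R), x = α * wd u a I})
    (hD : ∀ g ∈ S, ∃ D : A →ₗ[ℂ] A, (∀ x y, D (x * y) = D x * y + x * D y) ∧
      (∀ i y, D (u i y) = ∑ x, g x y • u i x) ∧ (∀ α ∈ C, D α = 0) ∧ D c = 0)
    (𝒮 : Subalgebra ℂ A) (hC : ∀ α ∈ C, α ∈ 𝒮)
    (h𝒮 : ∀ B, InvForm S B → ∀ i j, ∑ t : R × R, B t.1 t.2 • (u i t.1 * u j t.2) ∈ 𝒮) :
    c ∈ 𝒮 := by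
  obtain ⟨r, N, α, a, F0, hα, rfl⟩ := exists_piw hc
  obtain ⟨F, h1, h2⟩ := lift_inv (piw u α a) S hS (by
      intro g hg F h
      obtain ⟨D, hD1, hD2, hD3, -⟩ := hD g hg
      refine (piw_der α a hD1 hD2 (fun p => hD3 _ (hα p)) F).symm.trans ?_
      rw [h, map_zero]) F0 (by
      intro g hg
      obtain ⟨D, hD1, hD2, hD3, hD4⟩ := hD g hg
      exact (piw_der α a hD1 hD2 (fun p => hD3 _ (hα p)) F0).symm.trans hD4)
  rw [← h1, piw_apply]
  refine 𝒮.sum_mem fun p _ => 𝒮.mul_mem (hC _ (hα p)) ?_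
  have h3 : InvFun S (fun I : Fin (N p) → R => F ⟨p, I⟩) := by
    intro g hg I
    exact congrFun (h2 g hg) ⟨p, I⟩
  have h4 := hF (N p) _ h3
  have h5 : ∀ G ∈ Submodule.span ℂ {G : (Fin (N p) → R) → ℂ | ∃ (m : ℕ)
      (e : Fin m × Fin 2 ≃ Fin (N p)) (B : Fin m → R → R → ℂ), (∀ s, InvForm S (B s)) ∧
        G = fun I => ∏ s, B s (I (e (s, 0))) (I (e (s, 1)))},
      ∑ I, G I • wd u (a p) I ∈ 𝒮 := by
    intro G hG
    induction hG using Submodule.span_induction with
    | mem G hG =>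
      obtain ⟨m, e, B, hB, rfl⟩ := hG
      exact sum_match_mem e hu (a p) B 𝒮 fun s i j => h𝒮 _ (hB s) i j
    | zero =>
      simp only [Pi.zero_apply, zero_smul, Finset.sum_const_zero]
      exact zero_mem _
    | add x y _ _ hx hy =>
      simp only [Pi.add_apply, add_smul, Finset.sum_add_distrib]
      exact add_mem hx hy
    | smul r x _ hx =>
      simp only [Pi.smul_apply, smul_eq_mul, mul_smul, ← Finset.smul_sum]
      exact 𝒮.smul_mem hx r
  exact h5 _ h4

/-- words with central coefficients span -/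
theorem span_words {C : Subalgebra ℂ A} (hC : ∀ α ∈ C, ∀ x : A, α * x = x * α) {c : A}
    (hc : c ∈ Algebra.adjoin ℂ ((C : Set A) ∪ {y | ∃ i x, y = u i x})) :
    c ∈ Submodule.span ℂ {x | ∃ α ∈ (C : Set A), ∃ (n : ℕ) (a : Fin n → J) (I : Fin n → R),
      x = α * wd u a I} := by
  rw [← Subalgebra.mem_toSubmodule, Algebra.adjoin_eq_span] at hc
  refine Submodule.span_mono ?_ hc
  intro y hy
  have hy' : y ∈ Submonoid.closure ((C : Set A) ∪ {y | ∃ i x, y = u i x}) := hy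
  clear hy
  induction hy' using Submonoid.closure_induction_left with
  | one => exact ⟨1, one_mem C, 0, Fin.elim0, Fin.elim0, by rw [wd_zero, mul_one]⟩
  | mul_left x hx y hy ih =>
    obtain ⟨α, hα, n, a, I, rfl⟩ := ih
    rcases hx with hx | ⟨i, z, rfl⟩
    · exact ⟨x * α, C.mul_mem hx hα, n, a, I, (mul_assoc _ _ _).symm⟩
    · refine ⟨α, hα, n + 1, Fin.cons i a, Fin.cons z I, ?_⟩
      rw [wd_succ, ← mul_assoc, ← hC α hα]
      simp only [Fin.cons_zero, Fin.cons_succ, mul_assoc]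

end

end Pool.Agent.L5helper28.IH
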