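import Pool.Agent.L5helper28.IH.Max
import Pool.Agent.L5helper28.IH.Word
import Pool.Agent.L5helper28.CA.Cls2

/-!
# Hodge classes on powers generated by Hodge classes on the square
-/

set_option autoImplicit false
set_option linter.unusedSectionVars false

open CategoryTheory AlgebraicGeometry TensorProduct Matrix

universe u

namespace Pool.Agent.L5helper28.IH

open Module
open Pool.Agent.H914 Pool.Agent.H914.VarClass Pool.Agent.H914.VarClass.Obj
  Pool.Agent.H914.WeilCohomology
open Pool.Agent.Y121 Pool.Agent.Y121.AHS Pool.Agent.N996 Pool.Agent.N996.FP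
open Pool.Agent.L5helper28.IF
open Pool.Agent.L5helper28.IG (gC pbA pbA_apply pb_comp pb_id pb_mul pb_gC lt FFT InvForm inv_theta)
open Pool.Agent.L5helper28.CA (AllIn in_of_retract spH_comm)
open Pool.Agent.Y133.Half (pw ClassPred)

noncomputable section

variable {k : Type u} [Field k] {𝒱 : VarClass k} {ops : CycleOps 𝒱} {T : HodgeTheory ops}
  {X Y P : 𝒱.Obj} {w : ℕ}

set_option maxHeartbeats 400000

/-! ### Signs -/

theorem gC_anti {i : ℕ} (hi : Odd i) {x y : CV T.W X} (hx : x ∈ gC T X i) (hy : y ∈ gC T X i) :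
    x * y = -(y * x) := by
  rw [gC, Submodule.baseChange_eq_span] at hx hy
  induction hx using Submodule.span_induction with
  | mem x hx =>
    obtain ⟨c, hc, rfl⟩ := hx
    induction hy using Submodule.span_induction with
    | mem y hy =>
      obtain ⟨d, hd, rfl⟩ := hy
      have h := T.W.comm hc hd
      rw [(hi.mul hi).neg_one_pow, neg_smul, one_smul] at h
      rw [TensorProduct.mk_apply, TensorProduct.mk_apply, Algebra.TensorProduct.tmul_mul_tmul,
        Algebra.TensorProduct.tmul_mul_tmul, one_mul, h, TensorProduct.tmul_neg]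
    | zero => rw [mul_zero, zero_mul, neg_zero]
    | add x y _ _ hx hy => rw [mul_add, add_mul, hx, hy, neg_add]
    | smul r x _ hx => rw [mul_smul_comm, smul_mul_assoc, hx, smul_neg]
  | zero => rw [zero_mul, mul_zero, neg_zero]
  | add x y _ _ hx hy => rw [mul_add, add_mul, hx, hy, neg_add]
  | smul r x _ hx => rw [mul_smul_comm, smul_mul_assoc, hx, smul_neg]

/-- invariants are central -/
theorem inv_comm {α : CV T.W X} (hα : α ∈ inv T X) (f : P ⟶ X) (y : CV T.W P) :
    pb (T := T) f α * y = y * pb (T := T) f α := by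
  have h1 := inv_le hα
  clear hα
  rw [Submodule.baseChange_eq_span] at h1
  induction h1 using Submodule.span_induction with
  | mem α hα =>
    obtain ⟨c, hc, rfl⟩ := hα
    rw [TensorProduct.mk_apply]
    refine cv_ind (P := fun y : CV T.W P => pb (T := T) f ((1 : ℂ) ⊗ₜ[T.W.K] c) * y =
      y * pb (T := T) f ((1 : ℂ) ⊗ₜ[T.W.K] c)) ?_ ?_ ?_ y
    · rw [mul_zero, zero_mul]
    · intro l d
      rw [pb, LinearMap.baseChange_tmul, Algebra.TensorProduct.tmul_mul_tmul,
        Algebra.TensorProduct.tmul_mul_tmul, one_mul, mul_one]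
      congr 1
      exact spH_comm hc f d
    · intro a b ha hb
      rw [mul_add, add_mul, ha, hb]
  | zero => rw [map_zero, zero_mul, mul_zero]
  | add a b _ _ ha hb =>
    rw [map_add, add_mul, mul_add, ha, hb]
  | smul r a _ ha => rw [map_smul, smul_mul_assoc, mul_smul_comm, ha]

/-! ### The complex span of a system of classes -/

section sys

variable (Q : ClassPred T.W)

/-- the complex span of the classes in the system -/
def SC (P : 𝒱.Obj) : Submodule ℂ (CV T.W P) := (Q.sp P).baseChange ℂ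

variable {Q}

theorem tmul_SC {c : T.W.H P} (hc : c ∈ Q.sp P) : (1 : ℂ) ⊗ₜ[T.W.K] c ∈ SC Q P :=
  Submodule.tmul_mem_baseChange_of_mem (1 : ℂ) hc

theorem SC_mul {x y : CV T.W P} (hx : x ∈ SC Q P) (hy : y ∈ SC Q P) : x * y ∈ SC Q P := by
  rw [SC, Submodule.baseChange_eq_span] at hx hy
  induction hx using Submodule.span_induction with
  | mem x hx =>
    obtain ⟨c, hc, rfl⟩ := hx
    induction hy using Submodule.span_induction with
    | mem y hy =>
      obtain ⟨d, hd, rfl⟩ := hy
      rw [TensorProduct.mk_apply, TensorProduct.mk_apply, Algebra.TensorProduct.tmul_mul_tmul,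
        one_mul]
      exact tmul_SC (Q.sys.mul hc hd)
    | zero => rw [mul_zero]; exact zero_mem _
    | add x y _ _ hx hy => rw [mul_add]; exact add_mem hx hy
    | smul r x _ hx => rw [mul_smul_comm]; exact Submodule.smul_mem _ _ hx
  | zero => rw [zero_mul]; exact zero_mem _
  | add x y _ _ hx hy => rw [add_mul]; exact add_mem hx hy
  | smul r x _ hx => rw [smul_mul_assoc]; exact Submodule.smul_mem _ _ hx

variable (Q) in
/-- the algebra of the complex combinations of the classes in the system -/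
def SA (P : 𝒱.Obj) : Subalgebra ℂ (CV T.W P) where
  carrier := SC Q P
  mul_mem' := SC_mul
  add_mem' := add_mem
  algebraMap_mem' r := by
    rw [Algebra.algebraMap_eq_smul_one]
    exact Submodule.smul_mem _ _ (tmul_SC (Q.sys.one P))

theorem mem_SA {x : CV T.W P} : x ∈ SA Q P ↔ x ∈ SC Q P := Iff.rfl

theorem pb_SC (f : P ⟶ X) {x : CV T.W X} (hx : x ∈ SC Q X) : pb (T := T) f x ∈ SC Q P := by
  rw [SC, Submodule.baseChange_eq_span] at hx
  induction hx using Submodule.span_induction with
  | mem x hx =>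
    obtain ⟨c, hc, rfl⟩ := hx
    rw [TensorProduct.mk_apply, pb, LinearMap.baseChange_tmul]
    exact tmul_SC (Q.sys.map f hc)
  | zero => rw [map_zero]; exact zero_mem _
  | add x y _ _ hx hy => rw [map_add]; exact add_mem hx hy
  | smul c x _ hx => rw [map_smul]; exact Submodule.smul_mem _ _ hx

theorem inv_SC (h : AllIn T Q P) {x : CV T.W P} (hx : x ∈ inv T P) : x ∈ SC Q P := by
  have h1 := inv_le hx
  clear hx
  rw [Submodule.baseChange_eq_span] at h1
  induction h1 using Submodule.span_induction with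
  | mem x hx =>
    obtain ⟨c, hc, rfl⟩ := hx
    rw [TensorProduct.mk_apply]
    refine tmul_SC ?_
    refine (Submodule.span_le (p := Q.sp P)).2 ?_ hc
    rintro d ⟨j, hd⟩
    exact ClassPred.sp_of (h j d hd)
  | zero => exact zero_mem _
  | add x y _ _ hx hy => exact add_mem hx hy
  | smul c x _ hx => exact Submodule.smul_mem _ _ hx

theorem allIn_of_SC (h : ∀ x ∈ inv T P, x ∈ SC Q P) : AllIn T Q P := by
  intro j c hc
  have h1 : c ∈ Q.sp P := mem_of_baseChange (Q.sp P) (h _ (hodge_inv hc))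
  have h4 := ClassPred.sp_proj h1 j
  rwa [H914.proj_same _ hc.1] at h4

end sys

/-! ### Powers -/

theorem adjoin_pw {R : Type} {b : R → CV T.W X} {G : Set (CV T.W X)}
    (hb : ∀ z : CV T.W X, z ∈ Algebra.adjoin ℂ (G ∪ Set.range b))
    (n : ℕ) : ∀ z : CV T.W (pw X n), z ∈ Algebra.adjoin ℂ
      ({y | ∃ i, ∃ α ∈ G, y = pb (T := T) (pr X n i) α} ∪ {y | ∃ i x, y = lt b n i x}) := by
  induction n with
  | zero =>
    intro z
    refine Algebra.adjoin_mono ?_ (hb z)
    rintro y (hy | ⟨x, rfl⟩)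
    · exact Or.inl ⟨0, y, hy, (pb_id y).symm⟩
    · exact Or.inr ⟨0, x, (pb_id (b x)).symm⟩
  | succ n ih =>
    intro z
    have key : ∀ (i : ℕ) (hi : i ≤ n), fst (pw X n) X ≫ pr X n i = pr X (n + 1) i :=
      fun i hi => (if_pos hi).symm
    refine pb_ind (P := pw X n) (Y := X) (C := fun z : CV T.W ((pw X n).prod X) =>
      z ∈ Algebra.adjoin ℂ ({y : CV T.W ((pw X n).prod X) | ∃ i, ∃ α ∈ G,
        y = pb (T := T) (pr X (n + 1) i) α} ∪ {y | ∃ i x, y = lt b (n + 1) i x}))
      (zero_mem _) ?_ (fun x y hx hy => add_mem hx hy) z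
    intro a c
    refine mul_mem ?_ ?_
    · have h1 : pbA (T := T) (fst (pw X n) X) a ∈ (Algebra.adjoin ℂ
          ({y | ∃ i, ∃ α ∈ G, y = pb (T := T) (pr X n i) α} ∪
            {y | ∃ i x, y = lt b n i x})).map (pbA (T := T) (fst (pw X n) X)) := ⟨a, ih a, rfl⟩
      rw [AlgHom.map_adjoin] at h1
      refine Algebra.adjoin_mono ?_ h1
      have hle : ∀ i, ∃ i', fst (pw X n) X ≫ pr X n i = pr X (n + 1) i' := by
        intro i
        by_cases hi : i ≤ n
        · exact ⟨i, key i hi⟩
        · refine ⟨n, ?_⟩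
          rw [← key n le_rfl]
          congr 1
          cases n with
          | zero => rfl
          | succ n =>
            change (if i ≤ n then _ else _) = (if n + 1 ≤ n then _ else _)
            rw [if_neg (by omega), if_neg (by omega)]
      rintro _ ⟨y, ⟨i, α, hα, rfl⟩ | ⟨i, x, rfl⟩, rfl⟩
      · obtain ⟨i', hi'⟩ := hle i
        refine Or.inl ⟨i', α, hα, ?_⟩
        rw [← hi', pbA_apply]
        exact (pb_comp _ _ _).symm
      · obtain ⟨i', hi'⟩ := hle i
        refine Or.inr ⟨i', x, ?_⟩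
        rw [lt, lt, ← hi', pbA_apply]
        exact (pb_comp _ _ _).symm
    · have h1 : pbA (T := T) (snd (pw X n) X) c ∈ (Algebra.adjoin ℂ
          (G ∪ Set.range b)).map
            (pbA (T := T) (snd (pw X n) X)) := ⟨c, hb c, rfl⟩
      rw [AlgHom.map_adjoin] at h1
      refine Algebra.adjoin_mono ?_ h1
      have h2 : pr X (n + 1) (n + 1) = snd (pw X n) X := if_neg (by omega)
      rintro _ ⟨y, hy | ⟨x, rfl⟩, rfl⟩
      · exact Or.inl ⟨n + 1, y, hy, by rw [h2]; rfl⟩
      · exact Or.inr ⟨n + 1, x, by rw [lt, h2]; rfl⟩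

/-- **Powers.** -/
theorem allIn_pw' {Q : ClassPred T.W} {G : Set (CV T.W X)} (h : Good T X w)
    (hg : ∀ z : CV T.W X, z ∈ Algebra.adjoin ℂ (G ∪ (gC T X w : Set (CV T.W X))))
    (hG : ∀ α ∈ G, α ∈ inv T X) (hG' : ∀ α ∈ G, α ∈ SC Q X)
    (h2 : ∀ θ ∈ inv T (X.prod X), θ ∈ gC T (X.prod X) (2 * w) → θ ∈ SC Q (X.prod X)) (n : ℕ) :
    AllIn T Q (pw X n) := by
  refine allIn_of_SC fun c hc => ?_
  obtain ⟨R, _, _, b, S, hb1, hw, hb0, hS, hF, hr, ha⟩ := h
  have hb : ∀ z : CV T.W X, z ∈ Algebra.adjoin ℂ (G ∪ Set.range b) := by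
    intro z
    refine (Algebra.adjoin_le (S := Algebra.adjoin ℂ (G ∪ Set.range b)) ?_) (hg z)
    rintro y (hy | hy)
    · exact Algebra.subset_adjoin (Or.inl hy)
    · exact Algebra.adjoin_mono Set.subset_union_right (Algebra.span_le_adjoin ℂ _ (hb0 y hy))
  let uu : ℕ → R → CV T.W (pw X n) := lt b n
  have hu1 : ∀ i x, uu i x ∈ gC T (pw X n) w := fun i x => pb_gC _ (hb1 x)
  have hDf : ∀ {D : Ops fun X : 𝒱.Obj => CV T.W X}, D ∈ LT T → ∀ {g : Matrix R R ℂ},
      (∀ y, D X (b y) = ∑ x, g x y • b x) → ∀ {Z : 𝒱.Obj} (f : Z ⟶ X) (y : R),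
        D Z (pb (T := T) f (b y)) = ∑ x, g x y • pb (T := T) f (b x) := by
    intro D hD g hg Z f y
    have h1 := LT_map hD (isShift_map (T := T) f) (b y)
    refine h1.trans ?_
    rw [hg, map_sum]
    exact Finset.sum_congr rfl fun x _ => map_smul _ _ _
  -- the coefficients
  let C0 : Set (CV T.W (pw X n)) := {y | ∃ i, ∃ α ∈ G, y = pb (T := T) (pr X n i) α}
  let C : Subalgebra ℂ (CV T.W (pw X n)) := Algebra.adjoin ℂ C0
  have hC1 : ∀ α ∈ C, ∀ x : CV T.W (pw X n), α * x = x * α := by
    intro α hα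
    induction hα using Algebra.adjoin_induction with
    | mem α hα =>
      obtain ⟨i, β, hβ, rfl⟩ := hα
      exact fun x => inv_comm (hG β hβ) _ x
    | algebraMap r => exact fun x => Algebra.commutes r x
    | add a b _ _ ha hb => exact fun x => by rw [add_mul, mul_add, ha, hb]
    | mul a b _ _ ha hb => exact fun x => by rw [mul_assoc, hb, ← mul_assoc, ha, mul_assoc]
  have hC2 : ∀ D ∈ LT T, ∀ α ∈ C, D (pw X n) α = 0 := by
    intro D hD α hα
    induction hα using Algebra.adjoin_induction with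
    | mem α hα =>
      obtain ⟨i, β, hβ, rfl⟩ := hα
      have h1 := LT_map hD (isShift_map (T := T) (pr X n i)) β
      refine h1.trans ?_
      rw [hG β hβ D hD, map_zero]
    | algebraMap r =>
      have h2 : D (pw X n) (1 : CV T.W (pw X n)) = 0 := by
        have h4 := LT_mul hD (pw X n) 1 1
        rw [mul_one, mul_one, one_mul] at h4
        exact left_eq_add.1 h4
      rw [Algebra.algebraMap_eq_smul_one, map_smul, h2, smul_zero]
    | add a b _ _ ha hb => rw [map_add, ha, hb, add_zero]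
    | mul a b _ _ ha hb => rw [LT_mul hD, ha, hb, zero_mul, mul_zero, add_zero]
  have hC3 : C ≤ SA Q (pw X n) := by
    refine Algebra.adjoin_le ?_
    rintro _ ⟨i, β, hβ, rfl⟩
    exact pb_SC _ (hG' β hβ)
  refine mem_of_inv (u := uu) (C := (C : Set (CV T.W (pw X n)))) hS hF
    (fun i j x y => gC_anti hw (hu1 i x) (hu1 j y)) ?_ ?_ (SA Q (pw X n))
    (fun α hα => hC3 hα) ?_
  · refine span_words hC1 (Algebra.adjoin_mono ?_ (adjoin_pw hb n c))
    rintro y (hy | hy)
    · exact Or.inl (Algebra.subset_adjoin hy)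
    · exact Or.inr hy
  · intro g hg
    obtain ⟨D, hD, h1⟩ := hr g hg
    exact ⟨D (pw X n), LT_mul hD _, fun i y => hDf hD h1 _ y, fun α hα => hC2 D hD α hα, hc D hD⟩
  · intro B hB i j
    let f : pw X n ⟶ X.prod X := Obj.lift (pr X n i) (pr X n j)
    let vv : ℕ → R → CV T.W (X.prod X) := fun i x =>
      if i = 0 then pb (T := T) (fst X X) (b x) else pb (T := T) (snd X X) (b x)
    let θ : CV T.W (X.prod X) := ∑ t : R × R, B t.1 t.2 • (vv 0 t.1 * vv 1 t.2)
    have hθ : θ ∈ inv T (X.prod X) := by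
      refine IG.theta_inv (P := X.prod X) (uu := vv) (B := B) (fun D hD => ?_) 0 1
      obtain ⟨g, hg, h1⟩ := ha D hD
      refine ⟨g, fun i y => ?_, hB g hg⟩
      by_cases hi : i = 0
      · simp only [vv, if_pos hi]
        exact hDf hD h1 _ y
      · simp only [vv, if_neg hi]
        exact hDf hD h1 _ y
    have hθ2 : θ ∈ gC T (X.prod X) (2 * w) := by
      refine Submodule.sum_mem (gC T (X.prod X) (2 * w)) fun t _ =>
        Submodule.smul_mem (gC T (X.prod X) (2 * w)) _ ?_
      have h1 := IG.gC_mul (pb_gC (T := T) (fst X X) (hb1 t.1)) (pb_gC (T := T) (snd X X) (hb1 t.2))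
      rw [← two_mul] at h1
      exact h1
    have h3 : pb (T := T) f θ = ∑ t : R × R, B t.1 t.2 • (uu i t.1 * uu j t.2) := by
      rw [map_sum]
      refine Finset.sum_congr rfl fun t _ => ?_
      rw [map_smul, pb_mul]
      have e1 : pb (T := T) f (vv 0 t.1) = uu i t.1 := by
        change pb (T := T) f (pb (T := T) (fst X X) (b t.1)) = _
        rw [← pb_comp, Obj.lift_fst]
        rfl
      have e2 : pb (T := T) f (vv 1 t.2) = uu j t.2 := by
        change pb (T := T) f (pb (T := T) (snd X X) (b t.2)) = _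
        rw [← pb_comp, Obj.lift_snd]
        rfl
      rw [e1, e2]
    rw [← h3]
    exact pb_SC f (h2 θ hθ hθ2)

/-- **Powers.** -/
theorem allIn_pw {Q : ClassPred T.W} (h : Good T X w)
    (hg : ∀ z : T.W.H X, z ∈ Algebra.adjoin T.W.K ((spH T X : Set (T.W.H X)) ∪ T.W.gr X w))
    (h2 : AllIn T Q (X.prod X)) (n : ℕ) : AllIn T Q (pw X n) := by
  have h1 : AllIn T Q X := in_of_retract (diag X) (fst X X) (lift_fst _ _) h2
  exact allIn_pw' (G := (inv T X : Set (CV T.W X))) h (gen_C hg fun x hx => sp_inv hx)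
    (fun α hα => hα) (fun α hα => inv_SC h1 hα) (fun θ hθ _ => inv_SC h2 hθ) n

/-- a class in the span of the Hodge classes of degree two -/
theorem deg2_SC {Q : ClassPred T.W} (h : ∀ c : T.W.H P, IsHodge T P 1 c → Q.P P 1 c)
    {x : CV T.W P} (hx : x ∈ inv T P) (hx2 : x ∈ gC T P 2) : x ∈ SC Q P := by
  have key : ∀ x ∈ (spH T P).baseChange ℂ, (IG.q2 T P).baseChange ℂ x ∈ SC Q P := by
    intro x hx
    rw [Submodule.baseChange_eq_span] at hx
    induction hx using Submodule.span_induction with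
    | mem x hx =>
      obtain ⟨c, hc, rfl⟩ := hx
      rw [TensorProduct.mk_apply, LinearMap.baseChange_tmul]
      refine tmul_SC ?_
      induction hc using Submodule.span_induction with
      | mem c hc =>
        obtain ⟨j, hj⟩ := hc
        by_cases h1 : j = 1
        · subst h1
          have h2 : IG.q2 T P c = c := H914.proj_same (T.W.isInternal P) hj.1
          rw [h2]
          exact ClassPred.sp_of (h c hj)
        · have h2 : IG.q2 T P c = 0 := H914.proj_ne (T.W.isInternal P) hj.1 (by omega)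
          rw [h2]
          exact zero_mem _
      | zero => rw [map_zero]; exact zero_mem _
      | add x y _ _ hx hy => rw [map_add]; exact add_mem hx hy
      | smul r x _ hx => rw [map_smul]; exact Submodule.smul_mem _ _ hx
    | zero => rw [map_zero]; exact zero_mem _
    | add x y _ _ hx hy => rw [map_add]; exact add_mem hx hy
    | smul c x _ hx => rw [map_smul]; exact Submodule.smul_mem _ _ hx
  have h3 := key x (inv_le hx)
  rwa [IG.q2_gC hx2] at h3

/-- **Powers, degree one.** -/
theorem allIn_pw_one {Q : ClassPred T.W} (h : Good T X 1)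
    (hg : ∀ z : T.W.H X, z ∈ Algebra.adjoin T.W.K ({x | IsHodge T X 1 x} ∪ T.W.gr X 1))
    (hL : ∀ (P : 𝒱.Obj) (c : T.W.H P), IsHodge T P 1 c → Q.P P 1 c) (n : ℕ) :
    AllIn T Q (pw X n) := by
  refine allIn_pw' (G := {x : CV T.W X | x ∈ inv T X ∧ x ∈ gC T X 2}) h
    (gen_C hg fun x hx => ⟨hodge_inv hx, Submodule.tmul_mem_baseChange_of_mem (1 : ℂ) hx.1⟩)
    (fun α hα => hα.1) (fun α hα => deg2_SC (hL X) hα.1 hα.2)
    (fun θ hθ hθ2 => deg2_SC (hL _) hθ hθ2) n

end

end Pool.Agent.L5helper28.IH
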