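import Pool.Agent.L5helper28.IH.Deg

/-!
# Varieties with maximal Hodge group in odd degree: invariants and independence
-/

set_option autoImplicit false
set_option linter.unusedSectionVars false

open CategoryTheory AlgebraicGeometry TensorProduct Matrix

universe u

namespace Pool.Agent.L5helper28.IH

open Module
open Pool.Agent.H914 Pool.Agent.H914.VarClass Pool.Agent.H914.VarClass.Obj
  Pool.Agent.H914.WeilCohomology
open Pool.Agent.Y121 Pool.Agent.Y121.AHS Pool.Agent.N996 Pool.Agent.N996.FP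
open Pool.Agent.L5helper28.IF
open Pool.Agent.L5helper28.IG (gC Jm spS spS_star spS_fft FFT Sy Sk S2 S2_apply rk Brs
  equi_rat exists_equiv)
open Pool.Agent.H204R3.SP (JJ)

noncomputable section

variable {k : Type u} [Field k] {𝒱 : VarClass k} {ops : CycleOps 𝒱} {T : HodgeTheory ops}
  {X Y P : 𝒱.Obj} {w w' : ℕ}

set_option maxHeartbeats 400000

/-- The Lie algebra acts on the classes `b x` of odd degree `w`, which span the cohomology of this
degree, by a Lie algebra of matrices for which the first fundamental theorem is true. -/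
def Good (T : HodgeTheory ops) (X : 𝒱.Obj) (w : ℕ) : Prop :=
  ∃ (R : Type) (_ : Fintype R) (_ : DecidableEq R) (b : R → CV T.W X) (S : Set (Matrix R R ℂ)),
    (∀ x, b x ∈ gC T X w) ∧ Odd w ∧
    (∀ z ∈ gC T X w, z ∈ Submodule.span ℂ (Set.range b)) ∧
    (∀ g ∈ S, gᴴ ∈ S) ∧ FFT S ∧
    (∀ g ∈ S, ∃ D ∈ LT T, ∀ y, D X (b y) = ∑ x, g x y • b x) ∧
    ∀ D ∈ LT T, ∃ g ∈ S, ∀ y, D X (b y) = ∑ x, g x y • b x

/-- generation with complex coefficients -/
theorem gen_C {s : Set (T.W.H X)} {G : Set (CV T.W X)}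
    (hg : ∀ z : T.W.H X, z ∈ Algebra.adjoin T.W.K (s ∪ T.W.gr X w))
    (hs : ∀ x ∈ s, (1 : ℂ) ⊗ₜ[T.W.K] x ∈ G) (z : CV T.W X) :
    z ∈ Algebra.adjoin ℂ (G ∪ (gC T X w : Set (CV T.W X))) := by
  have h2 : ∀ x ∈ Algebra.adjoin T.W.K (s ∪ T.W.gr X w),
      ((1 : ℂ) ⊗ₜ[T.W.K] x : CV T.W X) ∈ Algebra.adjoin ℂ
        (G ∪ (gC T X w : Set (CV T.W X))) := by
    intro x hx
    induction hx using Algebra.adjoin_induction with
    | mem x hx =>
      rcases hx with hx | hx
      · exact Algebra.subset_adjoin (Or.inl (hs x hx))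
      · exact Algebra.subset_adjoin (Or.inr (Submodule.tmul_mem_baseChange_of_mem (1 : ℂ) hx))
    | algebraMap r =>
      have h3 : ((1 : ℂ) ⊗ₜ[T.W.K] (algebraMap T.W.K (T.W.H X) r) : CV T.W X) =
          (algebraMap T.W.K ℂ r) • (1 : CV T.W X) := by
        rw [Algebra.algebraMap_eq_smul_one, TensorProduct.tmul_smul,
          Algebra.TensorProduct.one_def, TensorProduct.smul_tmul', TensorProduct.smul_tmul',
          Algebra.smul_def, smul_eq_mul]
      rw [h3]
      exact (Algebra.adjoin ℂ _).smul_mem (one_mem _) _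
    | add x y _ _ hx hy => rw [TensorProduct.tmul_add]; exact add_mem hx hy
    | mul x y _ _ hx hy =>
      have h3 : ((1 : ℂ) ⊗ₜ[T.W.K] (x * y) : CV T.W X) =
          ((1 : ℂ) ⊗ₜ[T.W.K] x) * ((1 : ℂ) ⊗ₜ[T.W.K] y) := by
        rw [Algebra.TensorProduct.tmul_mul_tmul, one_mul]
      rw [h3]
      exact mul_mem hx hy
  refine cv_ind (P := fun z => z ∈ Algebra.adjoin ℂ (G ∪ (gC T X w : Set (CV T.W X))))
    (zero_mem _) ?_ (fun x y hx hy => add_mem hx hy) z
  intro l x
  have h3 : (l ⊗ₜ[T.W.K] x : CV T.W X) = l • ((1 : ℂ) ⊗ₜ[T.W.K] x) := by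
    rw [TensorProduct.smul_tmul', smul_eq_mul, mul_one]
  rw [h3]
  exact (Algebra.adjoin ℂ _).smul_mem (h2 x (hg x)) l

/-- **Varieties with maximal Hodge group.** -/
theorem good_max (h : MxC T X w) : Good T X w := by
  obtain ⟨hw, hg, ψ, hψ, hmx⟩ := h
  haveI : FiniteDimensional ℂ (CV T.W X) := Module.Finite.of_basis (rb T.W X)
  have hsy := sy_om hψ hw
  obtain ⟨R, i1, i2, e, inv, jj, hinv, hne, hjj, hj1, hω⟩ :=
    Pool.Agent.W529.Ta.exists_darboux (finrank ℂ ↥(gC T X w)) ↥(gC T X w) (om hψ w) hsy.alt hsy.nd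
      le_rfl
  have hω' : ∀ x y, om hψ w (e x) (e y) = Jm inv jj x y := hω
  refine ⟨R, i1, i2, fun x => (e x : CV T.W X), spS inv jj, fun x => (e x).2, hw, ?_,
    fun g hg => spS_star hinv hjj hj1 hg, spS_fft hinv hjj hj1, ?_, ?_⟩
  · intro z hz
    have h1 := e.sum_repr ⟨z, hz⟩
    have h2 := congrArg Subtype.val h1
    rw [Submodule.coe_sum] at h2
    change _ = z at h2
    rw [← h2]
    exact sum_mem fun x _ => Submodule.smul_mem _ _ (Submodule.subset_span ⟨x, rfl⟩)
  · intro g hg
    let A : End ℂ ↥(gC T X w) := e.constr ℂ fun y => ∑ x, g x y • e x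
    have hA : ∀ y, A (e y) = ∑ x, g x y • e x := fun y => e.constr_basis ℂ _ y
    have hsk : Sk (om hψ w) A := by
      have h1 : (om hψ w).comp A = -((om hψ w).compl₂ A) := by
        refine e.ext fun x => e.ext fun y => ?_
        rw [LinearMap.comp_apply, LinearMap.neg_apply, LinearMap.neg_apply,
          LinearMap.compl₂_apply, hA, hA, map_sum, map_sum, LinearMap.sum_apply]
        have h2 : gᵀ * Jm inv jj + Jm inv jj * g = 0 := hg
        have h3 := congrFun (congrFun h2 x) y
        rw [Matrix.add_apply, Matrix.mul_apply, Matrix.mul_apply, Matrix.zero_apply] at h3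
        have h4 : ∑ z, (om hψ w (g z x • e z)) (e y) = ∑ z, gᵀ x z * Jm inv jj z y := by
          refine Finset.sum_congr rfl fun z _ => ?_
          rw [map_smul, LinearMap.smul_apply, hω', smul_eq_mul, Matrix.transpose_apply]
        have h5 : ∑ z, (om hψ w (e x)) (g z y • e z) = ∑ z, Jm inv jj x z * g z y := by
          refine Finset.sum_congr rfl fun z _ => ?_
          rw [map_smul, hω', smul_eq_mul, mul_comm]
        rw [h4, h5]
        exact eq_neg_of_add_eq_zero_left h3
      intro x y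
      exact LinearMap.congr_fun (LinearMap.congr_fun h1 x) y
    obtain ⟨D, hD, h1⟩ := hmx A hsk
    refine ⟨D, hD, fun y => ?_⟩
    rw [h1, hA, Submodule.coe_sum]
    rfl
  · intro D hD
    let A := rs1 hψ w hD
    have hA : ∀ y, A (e y) = ∑ x, e.repr (A (e y)) x • e x := fun y => (e.sum_repr _).symm
    refine ⟨Matrix.of fun x y => e.repr (A (e y)) x, ?_, fun y => ?_⟩
    · change _ = _
      ext x y
      rw [Matrix.add_apply, Matrix.mul_apply, Matrix.mul_apply, Matrix.zero_apply]
      have h1 : Sk (om hψ w) A := sk_LT hψ hD fun v => rs1_apply hψ hD v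
      have h2 := h1 (e x) (e y)
      rw [hA x, hA y, map_sum, map_sum, LinearMap.sum_apply] at h2
      have h4 : ∑ z, (om hψ w (e.repr (A (e x)) z • e z)) (e y) =
          ∑ z, (Matrix.of fun x y => e.repr (A (e y)) x)ᵀ x z * Jm inv jj z y := by
        refine Finset.sum_congr rfl fun z _ => ?_
        rw [map_smul, LinearMap.smul_apply, hω', smul_eq_mul, Matrix.transpose_apply,
          Matrix.of_apply]
      have h5 : ∑ z, (om hψ w (e x)) (e.repr (A (e y)) z • e z) =
          ∑ z, Jm inv jj x z * (Matrix.of fun x y => e.repr (A (e y)) x) z y := by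
        refine Finset.sum_congr rfl fun z _ => ?_
        rw [map_smul, hω', smul_eq_mul, mul_comm, Matrix.of_apply]
      rw [h4, h5] at h2
      rw [h2, neg_add_cancel]
    · have h1 := congrArg Subtype.val (hA y)
      rw [Submodule.coe_sum] at h1
      exact h1

/-- **The Lie algebra is perfect.** -/
theorem perf_max (h : MxC T X w) {D : Ops fun X : 𝒱.Obj => CV T.W X} (hD : D ∈ LT T) :
    D X ∈ Brs T X := by
  obtain ⟨hw, hg, ψ, hψ, hmx⟩ := h
  haveI : FiniteDimensional ℂ (CV T.W X) := Module.Finite.of_basis (rb T.W X)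
  have hsy := sy_om hψ hw
  let I : Submodule ℂ (End ℂ ↥(gC T X w)) :=
    { carrier := {A | ∃ E ∈ LT T, (∀ v : ↥(gC T X w), E X v = A v) ∧ E X ∈ Brs T X}
      zero_mem' := ⟨0, zero_mem _, fun v => rfl, zero_mem _⟩
      add_mem' := by
        rintro A B ⟨E, hE, h1, h2⟩ ⟨E', hE', h3, h4⟩
        refine ⟨E + E', add_mem hE hE', fun v => ?_, add_mem h2 h4⟩
        change E X v + E' X v = A v + B v
        rw [h1, h3]
      smul_mem' := by
        rintro c A ⟨E, hE, h1, h2⟩
        refine ⟨c • E, Submodule.smul_mem _ _ hE, fun v => ?_, Submodule.smul_mem _ _ h2⟩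
        change c • E X v = c • (A v : CV T.W X)
        rw [h1] }
  have h1 : rs1 hψ w hD ∈ I := by
    refine hsy.sk_mem (fun u v => ?_) (sk_LT hψ hD fun v => rs1_apply hψ hD v)
    by_cases hu : u = 0
    · subst hu
      have h2 : S2 (om hψ w) 0 v = 0 := by
        refine LinearMap.ext fun z => ?_
        rw [S2_apply, map_zero, LinearMap.zero_apply, zero_smul, smul_zero, add_zero,
          LinearMap.zero_apply]
      rw [h2]
      exact zero_mem _
    · obtain ⟨A, hA, hAu⟩ := hsy.exists_to hu v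
      obtain ⟨D1, hD1, h2⟩ := hmx A hA
      obtain ⟨D2, hD2, h3⟩ := hmx _ (hsy.sk_rk u)
      refine ⟨D1 * D2 - D2 * D1, LL_br hD1 hD2, fun z => ?_,
        Submodule.subset_span ⟨D1, hD1, D2, hD2, rfl⟩⟩
      rw [← hAu, ← hsy.br_rk hA]
      change D1 X (D2 X z) - D2 X (D1 X z) = A (rk (om hψ w) u u z) - rk (om hψ w) u u (A z)
      rw [h3, h2, h2, h3]
  obtain ⟨E, hE, h2, h3⟩ := h1
  have h4 := kill_gen hg (sub_mem hE hD) (fun v hv => by
    change E X v - D X v = 0
    rw [h2 ⟨v, hv⟩, rs1_apply, sub_self])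
  have h5 : E X = D X := sub_eq_zero.1 h4
  rwa [h5] at h3

/-! ### Equivariant maps -/

/-- There are no morphisms from `H^w(X)` to `H^w'(Y)` up to Tate twists. -/
def NoMor (T : HodgeTheory ops) (X Y : 𝒱.Obj) (w w' : ℕ) : Prop :=
  ∀ (f : T.W.H X →ₗ[T.W.K] T.W.H Y) (c : ℤ), (w : ℤ) + 2 * c = w' → IsShift T f c →
    ∀ x ∈ T.W.gr X w, f x = 0

/-- a rational map which commutes with the Hodge operators gives a morphism on `H^w` -/
theorem kill_morphism (hw : Odd w) (hw' : Odd w') {ψ : RForm T.W X} (hψ : IsPolarisation T X ψ)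
    {φ : RForm T.W Y} (hφ : IsPolarisation T Y φ) (hno : NoMor T X Y w w')
    {f : T.W.H X →ₗ[T.W.K] T.W.H Y}
    (hf : ∀ x, f.baseChange ℂ (hop T X x) = hop T Y (f.baseChange ℂ x)) {x : CV T.W X}
    (hx : x ∈ gC T X w) : (qw T Y w').baseChange ℂ (f.baseChange ℂ x) = 0 := by
  obtain ⟨m, hm⟩ := hw
  obtain ⟨m', hm'⟩ := hw'
  let c : ℤ := (m' : ℤ) - m
  have hc : (w : ℤ) + 2 * c = w' := by
    change (w : ℤ) + 2 * ((m' : ℤ) - m) = w'
    rw [hm, hm']
    push_cast
    ring
  let f1 : T.W.H X →ₗ[T.W.K] T.W.H Y := qw T Y w' ∘ₗ f ∘ₗ qw T X w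
  have hf1 : ∀ x : CV T.W X, f1.baseChange ℂ x = (qw T Y w').baseChange ℂ (f.baseChange ℂ
      ((qw T X w).baseChange ℂ x)) := by
    intro x
    have h1 : f1.baseChange ℂ = (qw T Y w').baseChange ℂ ∘ₗ f.baseChange ℂ ∘ₗ
        (qw T X w).baseChange ℂ := by
      rw [← LinearMap.baseChange_comp, ← LinearMap.baseChange_comp]
    rw [h1]
    rfl
  have htype : IsShift T f1 c := by
    intro p q y hy
    change IsType T.pq (p + c) (q + c)
      (show HL T.W ℂ Y from f1.baseChange ℂ (show CV T.W X from y))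
    by_cases hy0 : y = 0
    · have h1 : f1.baseChange ℂ (show CV T.W X from y) = 0 := by
        rw [hy0]
        exact map_zero (f1.baseChange ℂ)
      rw [h1]
      exact zero_mem (T.pq Y _ _)
    · obtain ⟨h1, h2, h3, h4⟩ := hψ.range p q y hy hy0
      obtain ⟨i, hi⟩ : ∃ i : ℕ, p + q = (i : ℤ) := ⟨(p + q).toNat, by omega⟩
      rw [hf1]
      by_cases h5 : i = w
      · rw [h5] at hi
        have hy1 := type_gr hi hy
        rw [qw_same hy1]
        refine type_eig (w := w') (by omega) (qw_mem _) ?_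
        have h6 : hop T Y ((qw T Y w').baseChange ℂ (f.baseChange ℂ (show CV T.W X from y))) =
            (qw T Y w').baseChange ℂ (hop T Y (f.baseChange ℂ (show CV T.W X from y))) :=
          LT_qw hφ (D := fun X => hop T X) H_mem _
        rw [h6, ← hf, hop_pq hy, map_smul, map_smul]
        congr 2
        omega
      · rw [qw_ne h5 (type_gr hi hy), map_zero, map_zero]
        exact zero_mem (T.pq Y _ _)
  have h1 := hno f1 c hc htype
  have h2 : ∀ x ∈ gC T X w, f1.baseChange ℂ x = 0 := by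
    intro x hx
    rw [gC, Submodule.baseChange_eq_span] at hx
    induction hx using Submodule.span_induction with
    | mem x hx =>
      obtain ⟨c, hc, rfl⟩ := hx
      rw [TensorProduct.mk_apply, LinearMap.baseChange_tmul, h1 c hc, TensorProduct.tmul_zero]
    | zero => rw [map_zero]
    | add x y _ _ hx hy => rw [map_add, hx, hy, add_zero]
    | smul c x _ hx => rw [map_smul, hx, smul_zero]
  have h3 := h2 x hx
  rwa [hf1, qw_same hx] at h3

/-- there is no equivariant map -/
theorem no_equi (hw : Odd w) (hw' : Odd w') {ψ : RForm T.W X} (hψ : IsPolarisation T X ψ)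
    {φ : RForm T.W Y} (hφ : IsPolarisation T Y φ) (hno : NoMor T X Y w w')
    {g : CV T.W X →ₗ[ℂ] CV T.W Y}
    (hg : ∀ D ∈ LT T, ∀ x, g (D X x) = D Y (g x)) {x : CV T.W X} (hx : x ∈ gC T X w) :
    (qw T Y w').baseChange ℂ (g x) = 0 := by
  have h1 := equi_rat hg
  clear hg
  induction h1 using Submodule.span_induction with
  | mem g hg =>
    obtain ⟨f, rfl, hf⟩ := hg
    exact kill_morphism hw hw' hψ hφ hno hf hx
  | zero => rw [LinearMap.zero_apply, map_zero]
  | add a b _ _ ha hb => rw [LinearMap.add_apply, map_add, ha, hb, add_zero]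
  | smul c a _ ha => rw [LinearMap.smul_apply, map_smul, ha, smul_zero]

/-- **Pairs.** -/
theorem pair_max (hX : MxC T X w) (hY : MxC T Y w') (hno : NoMor T X Y w w')
    {D : Ops fun X : 𝒱.Obj => CV T.W X} (hD : D ∈ LT T) :
    ∃ D' ∈ LT T, D' Y = 0 ∧ D' X = D X := by
  obtain ⟨hw, hgX, ψ, hψ, hmX⟩ := hX
  obtain ⟨hw', hgY, φ, hφ, hmY⟩ := hY
  haveI : FiniteDimensional ℂ (CV T.W X) := Module.Finite.of_basis (rb T.W X)
  haveI : FiniteDimensional ℂ (CV T.W Y) := Module.Finite.of_basis (rb T.W Y)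
  have hsX := sy_om hψ hw
  have hsY := sy_om hφ hw'
  -- the ideals
  let I : Submodule ℂ (End ℂ ↥(gC T X w)) :=
    { carrier := {A | ∃ E ∈ LT T, (∀ v : ↥(gC T X w), E X v = A v) ∧ E Y = 0}
      zero_mem' := ⟨0, zero_mem _, fun v => rfl, rfl⟩
      add_mem' := by
        rintro A B ⟨E, hE, h1, h2⟩ ⟨E', hE', h3, h4⟩
        refine ⟨E + E', add_mem hE hE', fun v => ?_, ?_⟩
        · change E X v + E' X v = A v + B v
          rw [h1, h3]
        · rw [Pi.add_apply, h2, h4, add_zero]
      smul_mem' := by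
        rintro c A ⟨E, hE, h1, h2⟩
        refine ⟨c • E, Submodule.smul_mem _ _ hE, fun v => ?_, ?_⟩
        · change c • E X v = c • (A v : CV T.W X)
          rw [h1]
        · rw [Pi.smul_apply, h2, smul_zero] }
  let J : Submodule ℂ (End ℂ ↥(gC T Y w')) :=
    { carrier := {A | ∃ E ∈ LT T, (∀ v : ↥(gC T Y w'), E Y v = A v) ∧ E X = 0}
      zero_mem' := ⟨0, zero_mem _, fun v => rfl, rfl⟩
      add_mem' := by
        rintro A B ⟨E, hE, h1, h2⟩ ⟨E', hE', h3, h4⟩
        refine ⟨E + E', add_mem hE hE', fun v => ?_, ?_⟩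
        · change E Y v + E' Y v = A v + B v
          rw [h1, h3]
        · rw [Pi.add_apply, h2, h4, add_zero]
      smul_mem' := by
        rintro c A ⟨E, hE, h1, h2⟩
        refine ⟨c • E, Submodule.smul_mem _ _ hE, fun v => ?_, ?_⟩
        · change c • E Y v = c • (A v : CV T.W Y)
          rw [h1]
        · rw [Pi.smul_apply, h2, smul_zero] }
  have hbrI : ∀ A, Sk (om hψ w) A → ∀ x ∈ I, A * x - x * A ∈ I := by
    rintro A hA B ⟨E, hE, h1, h2⟩
    obtain ⟨F, hF, h3⟩ := hmX A hA
    refine ⟨F * E - E * F, LL_br hF hE, fun v => ?_, ?_⟩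
    · change F X (E X v) - E X (F X v) = A (B v) - B (A v)
      rw [h1, h3, h3, h1]
    · change F Y * E Y - E Y * F Y = 0
      rw [h2, mul_zero, zero_mul, sub_zero]
  have hbrJ : ∀ A, Sk (om hφ w') A → ∀ x ∈ J, A * x - x * A ∈ J := by
    rintro A hA B ⟨E, hE, h1, h2⟩
    obtain ⟨F, hF, h3⟩ := hmY A hA
    refine ⟨F * E - E * F, LL_br hF hE, fun v => ?_, ?_⟩
    · change F Y (E Y v) - E Y (F Y v) = A (B v) - B (A v)
      rw [h1, h3, h3, h1]
    · change F X * E X - E X * F X = 0
      rw [h2, mul_zero, zero_mul, sub_zero]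
  have hskI : ∀ x ∈ I, Sk (om hψ w) x := by
    rintro A ⟨E, hE, h1, -⟩
    exact sk_LT hψ hE fun v => (h1 v).symm
  have hskJ : ∀ x ∈ J, Sk (om hφ w') x := by
    rintro A ⟨E, hE, h1, -⟩
    exact sk_LT hφ hE fun v => (h1 v).symm
  have hDX : ∀ E ∈ LT T, (∀ v ∈ gC T X w, E X v = 0) → E X = 0 := fun E hE h => kill_gen hgX hE h
  have hDY : ∀ E ∈ LT T, (∀ v ∈ gC T Y w', E Y v = 0) → E Y = 0 := fun E hE h => kill_gen hgY hE h
  by_cases hI : I = ⊥
  · -- the operator on `X` is determined by the operator on `Y`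
    have h1 : ∀ E ∈ LT T, E Y = 0 → E X = 0 := by
      intro E hE h0
      have h2 : rs1 hψ w hE ∈ I := ⟨E, hE, fun v => rfl, h0⟩
      rw [hI] at h2
      have h3 := (Submodule.mem_bot ℂ).1 h2
      refine hDX E hE fun v hv => ?_
      have h4 := LinearMap.congr_fun h3 ⟨v, hv⟩
      exact congrArg Subtype.val h4
    suffices hs : D X = 0 from ⟨0, zero_mem _, rfl, hs.symm⟩
    by_cases hJ : J = ⊥
    · have h2 : ∀ E ∈ LT T, E X = 0 → E Y = 0 := by
        intro E hE h0
        have h2 : rs1 hφ w' hE ∈ J := ⟨E, hE, fun v => rfl, h0⟩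
        rw [hJ] at h2
        have h3 := (Submodule.mem_bot ℂ).1 h2
        refine hDY E hE fun v hv => ?_
        have h4 := LinearMap.congr_fun h3 ⟨v, hv⟩
        exact congrArg Subtype.val h4
      by_cases hV : ∃ v : ↥(gC T X w), v ≠ 0
      · exfalso
        let L : Submodule ℂ (End ℂ ↥(gC T X w) × End ℂ ↥(gC T Y w')) :=
          { carrier := {p | ∃ E ∈ LT T, (∀ v : ↥(gC T X w), E X v = p.1 v) ∧
              ∀ v : ↥(gC T Y w'), E Y v = p.2 v}
            zero_mem' := ⟨0, zero_mem _, fun v => rfl, fun v => rfl⟩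
            add_mem' := by
              rintro p q ⟨E, hE, h1, h2⟩ ⟨E', hE', h3, h4⟩
              refine ⟨E + E', add_mem hE hE', fun v => ?_, fun v => ?_⟩
              · change E X v + E' X v = p.1 v + q.1 v
                rw [h1, h3]
              · change E Y v + E' Y v = p.2 v + q.2 v
                rw [h2, h4]
            smul_mem' := by
              rintro c p ⟨E, hE, h1, h2⟩
              refine ⟨c • E, Submodule.smul_mem _ _ hE, fun v => ?_, fun v => ?_⟩
              · change c • E X v = c • (p.1 v : CV T.W X)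
                rw [h1]
              · change c • E Y v = c • (p.2 v : CV T.W Y)
                rw [h2] }
        obtain ⟨θ, hθ0, hθ⟩ := exists_equiv (L := L) hsX hsY hV (by
            rintro p ⟨E, hE, a1, a2⟩ q ⟨F, hF, b1, b2⟩
            refine ⟨E * F - F * E, LL_br hE hF, fun v => ?_, fun v => ?_⟩
            · change E X (F X v) - F X (E X v) = p.1 (q.1 v) - q.1 (p.1 v)
              rw [b1, a1, a1, b1]
            · change E Y (F Y v) - F Y (E Y v) = p.2 (q.2 v) - q.2 (p.2 v)
              rw [b2, a2, a2, b2])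
          (by
            rintro p ⟨E, hE, a1, a2⟩
            exact ⟨sk_LT hψ hE fun v => (a1 v).symm, sk_LT hφ hE fun v => (a2 v).symm⟩)
          (by
            intro A hA
            obtain ⟨E, hE, a1⟩ := hmX A hA
            exact ⟨rs1 hφ w' hE, E, hE, a1, fun v => rfl⟩)
          (by
            intro A hA
            obtain ⟨E, hE, a1⟩ := hmY A hA
            exact ⟨rs1 hψ w hE, E, hE, fun v => rfl, a1⟩)
          (by
            rintro p ⟨E, hE, a1, a2⟩ h0
            have h3 : E Y = 0 := h2 E hE (hDX E hE fun v hv => by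
              rw [a1 ⟨v, hv⟩, h0]; rfl)
            refine LinearMap.ext fun v => Subtype.ext ?_
            rw [← a2 v, h3]
            rfl)
          (by
            rintro p ⟨E, hE, a1, a2⟩ h0
            have h3 : E X = 0 := h1 E hE (hDY E hE fun v hv => by
              rw [a2 ⟨v, hv⟩, h0]; rfl)
            refine LinearMap.ext fun v => Subtype.ext ?_
            rw [← a1 v, h3]
            rfl)
        -- the equivariant map on the cohomology
        let g : CV T.W X →ₗ[ℂ] CV T.W Y := (gC T Y w').subtype ∘ₗ θ ∘ₗ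
          LinearMap.codRestrict (gC T X w) ((qw T X w).baseChange ℂ) qw_mem
        have hgx : ∀ v : ↥(gC T X w), g v = θ v := by
          intro v
          change ((θ ⟨(qw T X w).baseChange ℂ v, qw_mem _⟩ : ↥(gC T Y w')) : CV T.W Y) = θ v
          congr 2
          exact Subtype.ext (qw_same v.2)
        have hg : ∀ E ∈ LT T, ∀ x, g (E X x) = E Y (g x) := by
          intro E hE x
          have h3 := hθ (rs1 hψ w hE, rs1 hφ w' hE) ⟨E, hE, fun v => rfl, fun v => rfl⟩
            ⟨(qw T X w).baseChange ℂ x, qw_mem _⟩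
          have h4 := congrArg Subtype.val h3
          change ((θ ⟨(qw T X w).baseChange ℂ (E X x), qw_mem _⟩ : ↥(gC T Y w')) : CV T.W Y) =
            E Y ((θ ⟨(qw T X w).baseChange ℂ x, qw_mem _⟩ : ↥(gC T Y w')) : CV T.W Y)
          refine Eq.trans ?_ h4
          congr 2
          exact Subtype.ext (LT_qw hψ hE x).symm
        apply hθ0
        refine LinearMap.ext fun v => Subtype.ext ?_
        have h3 := no_equi hw hw' hψ hφ hno hg v.2
        rw [hgx, qw_same (θ v).2] at h3
        exact h3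
      · push Not at hV
        refine hDX D hD fun v hv => ?_
        have h3 := congrArg Subtype.val (hV ⟨v, hv⟩)
        change v = 0 at h3
        rw [h3, map_zero]
    · have h2 : rs1 hφ w' hD ∈ J := hsY.ideal hskJ hbrJ hJ
        (sk_LT hφ hD fun v => rs1_apply hφ hD v)
      obtain ⟨E, hE, h3, h4⟩ := h2
      have h5 := hDY _ (sub_mem hD hE) fun v hv => by
        change D Y v - E Y v = 0
        rw [h3 ⟨v, hv⟩, rs1_apply, sub_self]
      have h6 := h1 _ (sub_mem hD hE) h5
      change D X - E X = 0 at h6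
      rw [h4, sub_zero] at h6
      exact h6
  · have h1 : rs1 hψ w hD ∈ I := hsX.ideal hskI hbrI hI (sk_LT hψ hD fun v => rs1_apply hψ hD v)
    obtain ⟨E, hE, h2, h3⟩ := h1
    refine ⟨E, hE, h3, ?_⟩
    have h4 := hDX _ (sub_mem hE hD) fun v hv => by
      change E X v - D X v = 0
      rw [h2 ⟨v, hv⟩, rs1_apply, sub_self]
    exact sub_eq_zero.1 h4

end

end Pool.Agent.L5helper28.IH
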